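import Mathlib

set_option autoImplicit false

namespace Pool.Agent.Helper64.Rho

/-- For every element `t` of a finite commutative group there is a subgroup of index `orderOf t`
with cyclic quotient. -/
theorem exists_cyclic_quotient {Q : Type*} [CommGroup Q] [Finite Q] (t : Q) :
    ∃ N : Subgroup Q, N.index = orderOf t ∧ ∃ u : Q, N ⊔ Subgroup.zpowers u = ⊤ := by
  have hne : NeZero (Monoid.exponent Q) := ⟨Monoid.exponent_ne_zero_of_finite⟩
  obtain ⟨e⟩ := CommGroup.monoidHom_mulEquiv_of_hasEnoughRootsOfUnity Q ℂ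
  let χ : Q →* ℂˣ := e.symm t
  have hχ : orderOf χ = orderOf t := e.symm.orderOf_eq t
  have hfin : Finite χ.range := Finite.of_surjective χ.rangeRestrict χ.rangeRestrict_surjective
  obtain ⟨⟨g, u, hu⟩, hg⟩ := IsCyclic.exists_generator (α := χ.range)
  have hgen : ∀ x : Q, ∃ k : ℤ, g ^ k = χ x := by
    intro x
    obtain ⟨k, hk⟩ := hg ⟨χ x, x, rfl⟩
    exact ⟨k, congrArg Subtype.val hk⟩
  refine ⟨χ.ker, ?_, u, ?_⟩
  · rw [Subgroup.index_ker, ← hχ]
    have h1 : Nat.card χ.range = orderOf (⟨g, u, hu⟩ : χ.range) :=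
      (orderOf_eq_card_of_forall_mem_zpowers hg).symm
    rw [h1]
    have h2 : orderOf (⟨g, u, hu⟩ : χ.range) = orderOf g := Subgroup.orderOf_mk g _
    rw [h2, orderOf_eq_orderOf_iff]
    intro n
    constructor
    · intro h
      ext x
      obtain ⟨k, hk⟩ := hgen x
      rw [MonoidHom.pow_apply, ← hk, ← zpow_natCast, ← zpow_mul, mul_comm, zpow_mul, zpow_natCast, h,
        one_zpow]
      rfl
    · intro h
      rw [← hu, ← MonoidHom.pow_apply, h]
      rfl
  · rw [Subgroup.eq_top_iff']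
    intro x
    obtain ⟨k, hk⟩ := hgen x
    have h1 : x * (u ^ k)⁻¹ ∈ χ.ker := by
      rw [MonoidHom.mem_ker, map_mul, map_inv, map_zpow, hu, hk, mul_inv_cancel]
    have h2 : x = x * (u ^ k)⁻¹ * u ^ k := by group
    rw [h2]
    exact Subgroup.mul_mem_sup h1 (Subgroup.zpow_mem_zpowers u k)

/-- additive form -/
theorem exists_cyclic_quotient_add {Q : Type*} [AddCommGroup Q] [Finite Q] (t : Q) :
    ∃ N : AddSubgroup Q, N.index = addOrderOf t ∧ ∃ u : Q, N ⊔ AddSubgroup.zmultiples u = ⊤ := by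
  obtain ⟨N, h1, u, h2⟩ := exists_cyclic_quotient (Q := Multiplicative Q) (Multiplicative.ofAdd t)
  refine ⟨Subgroup.toAddSubgroup' N, ?_, Multiplicative.toAdd u, ?_⟩
  · rw [← orderOf_ofAdd_eq_addOrderOf, ← h1]
    rfl
  · rw [AddSubgroup.eq_top_iff']
    intro x
    have h3 : Multiplicative.ofAdd x ∈ N ⊔ Subgroup.zpowers u := by rw [h2]; trivial
    obtain ⟨y, hy, z, hz, hyz⟩ := Subgroup.mem_sup.mp h3
    rw [AddSubgroup.mem_sup]
    obtain ⟨k, hk⟩ := hz
    refine ⟨Multiplicative.toAdd y, hy, Multiplicative.toAdd z, ⟨k, ?_⟩, ?_⟩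
    · simp only at hk
      rw [← hk]
      rfl
    · exact congrArg Multiplicative.toAdd hyz

section

variable {G : Type*} [AddCommGroup G] [Finite G]

/-- the exchange lemma -/
theorem exchange (M K : AddSubgroup G) (t : G) (hMK : M ≤ K) (ht : t ∈ K) :
    ∃ K' : AddSubgroup G, M ≤ K' ∧ K' ≤ K ∧
      Nat.card K' * Nat.card (M ⊔ AddSubgroup.zmultiples t : AddSubgroup G) =
        Nat.card K * Nat.card M ∧ ∃ u : G, K = K' ⊔ AddSubgroup.zmultiples u := by
  -- work in the group K modulo M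
  let M' : AddSubgroup K := M.addSubgroupOf K
  let π : K →+ K ⧸ M' := QuotientAddGroup.mk' M'
  have hπ : Function.Surjective π := QuotientAddGroup.mk'_surjective M'
  let t' : K := ⟨t, ht⟩
  obtain ⟨N, hN, u, hu⟩ := exists_cyclic_quotient_add (π t')
  obtain ⟨v, hv⟩ := hπ u
  have hM' : Nat.card M' = Nat.card M :=
    Nat.card_congr (AddSubgroup.addSubgroupOfEquivOfLe hMK).toEquiv
  -- the subgroup generated by M and t
  have hsup : (M ⊔ AddSubgroup.zmultiples t : AddSubgroup G) =
      ((AddSubgroup.zmultiples (π t')).comap π).map K.subtype := by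
    ext x
    rw [AddSubgroup.mem_sup, AddSubgroup.mem_map]
    constructor
    · rintro ⟨y, hy, z, ⟨k, hk⟩, rfl⟩
      simp only at hk
      refine ⟨⟨y + z, K.add_mem (hMK hy) (by rw [← hk]; exact K.zsmul_mem ht k)⟩, ?_, rfl⟩
      rw [AddSubgroup.mem_comap]
      refine ⟨k, ?_⟩
      simp only
      rw [← map_zsmul]
      symm
      apply (QuotientAddGroup.eq_iff_sub_mem).mpr
      rw [AddSubgroup.mem_addSubgroupOf]
      have : ((⟨y + z, K.add_mem (hMK hy) (by rw [← hk]; exact K.zsmul_mem ht k)⟩ : K) - k • t' : K)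
          = (⟨y, hMK hy⟩ : K) := by
        apply Subtype.ext
        simp only [t', AddSubgroup.coe_sub, AddSubgroup.coe_zsmul]
        rw [hk]
        abel
      rw [this]
      exact hy
    · rintro ⟨y, hy, rfl⟩
      rw [AddSubgroup.mem_comap] at hy
      obtain ⟨k, hk⟩ := hy
      simp only at hk
      rw [← map_zsmul] at hk
      have h1 := (QuotientAddGroup.eq_iff_sub_mem).mp hk.symm
      rw [AddSubgroup.mem_addSubgroupOf] at h1
      refine ⟨_, h1, k • t, ⟨k, rfl⟩, ?_⟩
      simp [t']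
  have hcard_map : ∀ P : AddSubgroup K, Nat.card (P.map K.subtype) = Nat.card P := by
    intro P
    exact (Nat.card_congr (P.equivMapOfInjective K.subtype K.subtype_injective).toEquiv).symm
  have hL : Nat.card (M ⊔ AddSubgroup.zmultiples t : AddSubgroup G) =
      addOrderOf (π t') * Nat.card M := by
    rw [hsup, hcard_map]
    have e1 := ((AddSubgroup.zmultiples (π t')).comap π).card_mul_index
    rw [AddSubgroup.index_comap_of_surjective _ hπ] at e1
    have e2 := (AddSubgroup.zmultiples (π t')).card_mul_index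
    have e3 := M'.card_eq_card_quotient_mul_card_addSubgroup
    rw [Nat.card_zmultiples] at e2
    rw [← e2, ← e1, hM'] at e3
    have e4 : 0 < (AddSubgroup.zmultiples (π t')).index := Nat.pos_of_ne_zero
      AddSubgroup.index_ne_zero_of_finite
    apply Nat.eq_of_mul_eq_mul_right e4
    rw [e3]
    ring
  refine ⟨(N.comap π).map K.subtype, ?_, ?_, ?_, v, ?_⟩
  · intro x hx
    rw [AddSubgroup.mem_map]
    refine ⟨⟨x, hMK hx⟩, ?_, rfl⟩
    rw [AddSubgroup.mem_comap]
    have : π ⟨x, hMK hx⟩ = 0 := (QuotientAddGroup.eq_zero_iff _).mpr hx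
    rw [this]
    exact N.zero_mem
  · intro x hx
    obtain ⟨y, _, rfl⟩ := AddSubgroup.mem_map.mp hx
    exact y.2
  · rw [hcard_map, hL]
    have e1 := (N.comap π).card_mul_index
    rw [AddSubgroup.index_comap_of_surjective _ hπ, hN] at e1
    rw [← mul_assoc, e1]
  · apply le_antisymm
    · intro x hx
      have h1 : π ⟨x, hx⟩ ∈ N ⊔ AddSubgroup.zmultiples u := by rw [hu]; trivial
      obtain ⟨y, hy, z, ⟨k, hk⟩, hyz⟩ := AddSubgroup.mem_sup.mp h1
      simp only at hk
      rw [← hk, ← hv, ← map_zsmul] at hyz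
      have h2 : π (⟨x, hx⟩ - k • v) = y := by
        rw [map_sub, ← hyz]
        abel
      rw [AddSubgroup.mem_sup]
      refine ⟨x - k • v, AddSubgroup.mem_map.mpr ⟨⟨x, hx⟩ - k • v, ?_, rfl⟩, k • (v : G), ⟨k, rfl⟩,
        by simp⟩
      rw [AddSubgroup.mem_comap, h2]
      exact hy
    · rw [sup_le_iff]
      constructor
      · intro x hx
        obtain ⟨y, _, rfl⟩ := AddSubgroup.mem_map.mp hx
        exact y.2
      · rw [AddSubgroup.zmultiples_le]
        exact v.2

end

end Pool.Agent.Helper64.Rho
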