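import Mathlib

set_option autoImplicit false

namespace Pool.Agent.Helper64.Rho

open Finset

section FS

variable {ι G : Type*} [AddCommGroup G] [DecidableEq G]

/-- all subfamily sums of the family `f` restricted to `s` -/
def FS (s : Finset ι) (f : ι → G) : Finset G := s.powerset.image fun t => ∑ i ∈ t, f i

lemma mem_FS {s : Finset ι} {f : ι → G} {x : G} : x ∈ FS s f ↔ ∃ t ⊆ s, ∑ i ∈ t, f i = x := by
  simp [FS]

lemma zero_mem_FS (s : Finset ι) (f : ι → G) : (0 : G) ∈ FS s f :=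
  mem_FS.mpr ⟨∅, empty_subset _, by simp⟩

@[simp] lemma FS_empty (f : ι → G) : FS ∅ f = {0} := by
  simp [FS]

lemma FS_mono {s t : Finset ι} (h : s ⊆ t) (f : ι → G) : FS s f ⊆ FS t f := by
  intro x hx
  obtain ⟨u, hu, rfl⟩ := mem_FS.mp hx
  exact mem_FS.mpr ⟨u, hu.trans h, rfl⟩

lemma mem_FS_union [DecidableEq ι] {s t : Finset ι} (h : Disjoint s t) (f : ι → G) {x : G} :
    x ∈ FS (s ∪ t) f ↔ ∃ a ∈ FS s f, ∃ b ∈ FS t f, x = a + b := by
  constructor
  · intro hx
    obtain ⟨u, hu, rfl⟩ := mem_FS.mp hx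
    refine ⟨∑ i ∈ u ∩ s, f i, mem_FS.mpr ⟨u ∩ s, inter_subset_right, rfl⟩,
      ∑ i ∈ u ∩ t, f i, mem_FS.mpr ⟨u ∩ t, inter_subset_right, rfl⟩, ?_⟩
    rw [← sum_union]
    · rw [← inter_union_distrib_left, inter_eq_left.mpr hu]
    · exact h.mono inter_subset_right inter_subset_right
  · rintro ⟨a, ha, b, hb, rfl⟩
    obtain ⟨u, hu, rfl⟩ := mem_FS.mp ha
    obtain ⟨v, hv, rfl⟩ := mem_FS.mp hb
    refine mem_FS.mpr ⟨u ∪ v, union_subset_union hu hv, ?_⟩
    rw [sum_union (h.mono hu hv)]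

lemma FS_insert [DecidableEq ι] {i : ι} {s : Finset ι} (hi : i ∉ s) (f : ι → G) :
    FS (insert i s) f = FS s f ∪ (FS s f).image (· + f i) := by
  ext x
  have h1 : insert i s = s ∪ {i} := by ext; simp [or_comm]
  have h2 : FS {i} f = {0, f i} := by
    ext y
    rw [mem_FS]
    constructor
    · rintro ⟨t, ht, rfl⟩
      rcases subset_singleton_iff.mp ht with rfl | rfl <;> simp
    · intro hy
      rcases mem_insert.mp hy with rfl | hy
      · exact ⟨∅, empty_subset _, by simp⟩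
      · exact ⟨{i}, Subset.refl _, by simp [mem_singleton.mp hy]⟩
  rw [h1, mem_FS_union (disjoint_singleton_right.mpr hi), h2]
  simp only [mem_insert, mem_singleton, mem_union, mem_image]
  constructor
  · rintro ⟨a, ha, b, rfl | rfl, rfl⟩
    · left; simpa using ha
    · right; exact ⟨a, ha, rfl⟩
  · rintro (hx | ⟨a, ha, rfl⟩)
    · exact ⟨x, hx, 0, Or.inl rfl, by simp⟩
    · exact ⟨a, ha, f i, Or.inr rfl, rfl⟩

lemma FS_subset_of_mem {s : Finset ι} {f : ι → G} {M : AddSubgroup G} (h : ∀ i ∈ s, f i ∈ M) {x : G}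
    (hx : x ∈ FS s f) : x ∈ M := by
  obtain ⟨t, ht, rfl⟩ := mem_FS.mp hx
  exact M.sum_mem fun i hi => h i (ht hi)

lemma card_FS_le (s : Finset ι) (f : ι → G) : (FS s f).card ≤ 2 ^ s.card := by
  unfold FS
  exact card_image_le.trans (by rw [card_powerset])

end FS

end Pool.Agent.Helper64.Rho
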