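import Mathlib
import Pool.Agent.Helper64.Rho.Sums
import Pool.Agent.Helper64.Rho.Dual

set_option autoImplicit false

namespace Pool.Agent.Helper64.Rho

open Finset

section Corank

variable {G : Type*} [AddCommGroup G] [Finite G]

/-- the rank of the quotient -/
noncomputable def crk (H : AddSubgroup G) : ℕ := AddGroup.rank (G ⧸ H)

lemma crk_le {H : AddSubgroup G} {S : Finset G} (hS : H ⊔ AddSubgroup.closure (S : Set G) = ⊤) :
    crk H ≤ S.card := by
  classical
  unfold crk
  refine (AddGroup.rank_le (S := S.image (QuotientAddGroup.mk' H)) ?_).trans card_image_le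
  rw [coe_image, ← AddMonoidHom.map_closure]
  have h1 : (H ⊔ AddSubgroup.closure (S : Set G)).map (QuotientAddGroup.mk' H) = ⊤ := by
    rw [hS]
    exact AddSubgroup.map_top_of_surjective _ (QuotientAddGroup.mk'_surjective H)
  rw [AddSubgroup.map_sup, QuotientAddGroup.map_mk'_self, bot_sup_eq] at h1
  exact h1

lemma exists_crk (H : AddSubgroup G) :
    ∃ S : Finset G, S.card = crk H ∧ H ⊔ AddSubgroup.closure (S : Set G) = ⊤ := by
  classical
  obtain ⟨T, hT, hTc⟩ := AddGroup.rank_spec (G ⧸ H)
  have hgen : H ⊔ AddSubgroup.closure ((T.image Quotient.out : Finset G) : Set G) = ⊤ := by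
    rw [AddSubgroup.eq_top_iff']
    intro x
    have h1 : AddSubgroup.closure (T : Set (G ⧸ H)) ≤
        (AddSubgroup.closure ((T.image Quotient.out : Finset G) : Set G)).map
          (QuotientAddGroup.mk' H) := by
      rw [AddSubgroup.closure_le]
      intro y hy
      refine AddSubgroup.mem_map.mpr ⟨y.out, AddSubgroup.subset_closure ?_, ?_⟩
      · rw [coe_image]
        exact ⟨y, hy, rfl⟩
      · exact Quotient.out_eq' y
    rw [hTc] at h1
    have h2 := h1 (AddSubgroup.mem_top (QuotientAddGroup.mk' H x))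
    obtain ⟨z, hz, hzx⟩ := AddSubgroup.mem_map.mp h2
    have h3 : x - z ∈ H := (QuotientAddGroup.eq_iff_sub_mem).mp hzx.symm
    have h4 : x = (x - z) + z := by abel
    rw [h4]
    exact AddSubgroup.add_mem_sup h3 hz
  refine ⟨T.image Quotient.out, ?_, hgen⟩
  apply le_antisymm
  · exact card_image_le.trans hT.le
  · exact crk_le hgen

lemma crk_top : crk (⊤ : AddSubgroup G) = 0 := by
  have := crk_le (H := (⊤ : AddSubgroup G)) (S := ∅) (by simp)
  simpa using this

lemma crk_pos {H : AddSubgroup G} (h : H ≠ ⊤) : 1 ≤ crk H := by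
  by_contra hcon
  obtain ⟨S, hS, hg⟩ := exists_crk H
  have : S.card = 0 := by omega
  rw [card_eq_zero] at this
  subst this
  simp at hg
  exact h hg

/-- adding one generator lowers the corank by at most one -/
lemma crk_sup_le (H : AddSubgroup G) (t : G) :
    crk H ≤ crk (H ⊔ AddSubgroup.zmultiples t) + 1 := by
  classical
  obtain ⟨S, hS, hg⟩ := exists_crk (H ⊔ AddSubgroup.zmultiples t)
  rw [← hS]
  refine (crk_le (S := insert t S) ?_).trans (card_insert_le _ _)
  rw [coe_insert, Set.insert_eq, AddSubgroup.closure_union, ← sup_assoc,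
    ← AddSubgroup.zmultiples_eq_closure]
  exact hg

end Corank

section Sat

variable {G : Type*} [AddCommGroup G] [Fintype G] [DecidableEq G]

open Classical in
/-- the union of the `M`-cosets that meet `Y` -/
noncomputable def sat (M : AddSubgroup G) (Y : Finset G) : Finset G :=
  univ.filter fun x => ∃ y ∈ Y, x - y ∈ M

lemma mem_sat {M : AddSubgroup G} {Y : Finset G} {x : G} : x ∈ sat M Y ↔ ∃ y ∈ Y, x - y ∈ M := by
  simp [sat]

lemma subset_sat (M : AddSubgroup G) (Y : Finset G) : Y ⊆ sat M Y := fun y hy =>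
  mem_sat.mpr ⟨y, hy, by rw [sub_self]; exact M.zero_mem⟩

lemma add_mem_sat {M : AddSubgroup G} {Y : Finset G} {x g : G} (hx : x ∈ sat M Y) (hg : g ∈ M) :
    x + g ∈ sat M Y := by
  obtain ⟨y, hy, hxy⟩ := mem_sat.mp hx
  refine mem_sat.mpr ⟨y, hy, ?_⟩
  have : x + g - y = (x - y) + g := by abel
  rw [this]
  exact M.add_mem hxy hg

open Classical in
/-- the elements of a subgroup -/
noncomputable def elts (M : AddSubgroup G) : Finset G := univ.filter fun x => x ∈ M

omit [DecidableEq G] in
lemma mem_elts {M : AddSubgroup G} {x : G} : x ∈ elts M ↔ x ∈ M := by simp [elts]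

omit [DecidableEq G] in
lemma card_elts (M : AddSubgroup G) : (elts M).card = Nat.card M := by
  have e1 : (elts M).card = ((elts M : Finset G) : Set G).ncard := (Set.ncard_coe_finset _).symm
  have e2 : ((elts M : Finset G) : Set G) = (M : Set G) := by
    ext x
    simp [mem_elts]
  rw [e1, e2]
  rfl

/-- the number of cosets met -/
lemma card_sat (M : AddSubgroup G) (Y : Finset G) :
    ∃ R ⊆ Y, (∀ r ∈ R, ∀ r' ∈ R, r - r' ∈ M → r = r') ∧ (sat M Y).card = R.card * Nat.card M := by
  classical
  obtain ⟨R, hR, hinj, himg⟩ := Finset.exists_subset_injOn_image_eq_of_surjOn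
    (f := (QuotientAddGroup.mk : G → G ⧸ M)) (Y : Set G) (Y.image QuotientAddGroup.mk)
    (by rw [coe_image]; exact Set.surjOn_image _ _)
  have hR' : R ⊆ Y := fun x hx => hR hx
  have hinj' : ∀ r ∈ R, ∀ r' ∈ R, r - r' ∈ M → r = r' := by
    intro r hr r' hr' h
    exact hinj hr hr' ((QuotientAddGroup.eq_iff_sub_mem).mpr h)
  refine ⟨R, hR', hinj', ?_⟩
  rw [← card_elts, ← card_product]
  symm
  apply card_bij (fun p _ => p.1 + p.2)
  · intro p hp
    rw [mem_product] at hp
    refine mem_sat.mpr ⟨p.1, hR' hp.1, ?_⟩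
    rw [add_sub_cancel_left]
    exact mem_elts.mp hp.2
  · rintro ⟨r, x⟩ hp ⟨r', x'⟩ hp' h
    rw [mem_product] at hp hp'
    simp only at hp hp' h
    have h1 : r - r' ∈ M := by
      have : r - r' = x' - x := by
        rw [sub_eq_sub_iff_add_eq_add, h, add_comm]
      rw [this]
      exact M.sub_mem (mem_elts.mp hp'.2) (mem_elts.mp hp.2)
    have h2 := hinj' r hp.1 r' hp'.1 h1
    subst h2
    rw [add_left_cancel h]
  · intro x hx
    obtain ⟨y, hy, hxy⟩ := mem_sat.mp hx
    have h1 : (QuotientAddGroup.mk y : G ⧸ M) ∈ R.image QuotientAddGroup.mk := by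
      rw [himg]
      exact mem_image_of_mem _ hy
    obtain ⟨r, hr, hry⟩ := mem_image.mp h1
    have h2 : r - y ∈ M := (QuotientAddGroup.eq_iff_sub_mem).mp hry
    refine ⟨(r, x - r), ?_, by simp⟩
    rw [mem_product]
    refine ⟨hr, mem_elts.mpr ?_⟩
    have : x - r = (x - y) - (r - y) := by abel
    simp only
    rw [this]
    exact M.sub_mem hxy h2

variable {ι : Type*} [DecidableEq ι]

/-- the product inequality -/
lemma card_prod_le (M L : AddSubgroup G) (f : ι → G) (s1 s2 : Finset ι)
    (hd : Disjoint s2 s1) (h1 : ∀ i ∈ s1, f i ∈ L) (hML : M ≤ L) :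
    (sat L (FS s2 f)).card * (sat M (FS s1 f)).card ≤
      (sat M (FS (s2 ∪ s1) f)).card * Nat.card L := by
  obtain ⟨R, hR, hinj, hc⟩ := card_sat L (FS s2 f)
  rw [hc]
  have hsub : ∀ x ∈ sat M (FS s1 f), x ∈ L := by
    intro x hx
    obtain ⟨y, hy, hxy⟩ := mem_sat.mp hx
    have h2 : y ∈ L := FS_subset_of_mem h1 hy
    have h3 : x = (x - y) + y := by abel
    rw [h3]
    exact L.add_mem (hML hxy) h2
  have h2 : R.card * (sat M (FS s1 f)).card ≤ (sat M (FS (s2 ∪ s1) f)).card := by
    rw [← card_product]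
    apply card_le_card_of_injOn (fun p => p.1 + p.2)
    · intro p hp
      have hp := mem_product.mp (mem_coe.mp hp)
      obtain ⟨y, hy, hxy⟩ := mem_sat.mp hp.2
      refine mem_coe.mpr (mem_sat.mpr ⟨p.1 + y, ?_, ?_⟩)
      · exact (mem_FS_union hd f).mpr ⟨p.1, hR hp.1, y, hy, rfl⟩
      · rw [add_sub_add_left_eq_sub]
        exact hxy
    · rintro ⟨r, x⟩ hp ⟨r', x'⟩ hp' h
      have hp := mem_product.mp (mem_coe.mp hp)
      have hp' := mem_product.mp (mem_coe.mp hp')
      simp only at hp hp' h
      have h1 : r - r' ∈ L := by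
        have : r - r' = x' - x := by
          rw [sub_eq_sub_iff_add_eq_add, h, add_comm]
        rw [this]
        exact L.sub_mem (hsub _ hp'.2) (hsub _ hp.2)
      have h2 := hinj r hp.1 r' hp'.1 h1
      subst h2
      rw [add_left_cancel h]
  calc R.card * Nat.card L * (sat M (FS s1 f)).card
      = (R.card * (sat M (FS s1 f)).card) * Nat.card L := by ring
    _ ≤ _ := Nat.mul_le_mul_right _ h2

lemma card_le_sat_FS (M : AddSubgroup G) (s : Finset ι) (f : ι → G) :
    Nat.card M ≤ (sat M (FS s f)).card := by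
  rw [← card_elts]
  apply card_le_card
  intro x hx
  refine mem_sat.mpr ⟨0, zero_mem_FS s f, ?_⟩
  rw [sub_zero]
  exact mem_elts.mp hx

/-- two cosets -/
lemma two_card_le_sat {M : AddSubgroup G} {s : Finset ι} {f : ι → G} {i : ι} (hi : i ∈ s)
    (hfi : f i ∉ M) : 2 * Nat.card M ≤ (sat M (FS s f)).card := by
  have h1 : Disjoint (elts M) ((elts M).image (· + f i)) := by
    rw [disjoint_left]
    intro x hx hx2
    obtain ⟨y, hy, rfl⟩ := mem_image.mp hx2
    apply hfi
    have : f i = (y + f i) - y := by abel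
    rw [this]
    exact M.sub_mem (mem_elts.mp hx) (mem_elts.mp hy)
  have h2 : (elts M ∪ (elts M).image (· + f i)).card = 2 * Nat.card M := by
    rw [card_union_of_disjoint h1, card_image_of_injective _ (add_left_injective _), card_elts]
    ring
  rw [← h2]
  apply card_le_card
  intro x hx
  rcases mem_union.mp hx with hx | hx
  · exact mem_sat.mpr ⟨0, zero_mem_FS s f, by rw [sub_zero]; exact mem_elts.mp hx⟩
  · obtain ⟨y, hy, rfl⟩ := mem_image.mp hx
    refine mem_sat.mpr ⟨f i, mem_FS.mpr ⟨{i}, singleton_subset_iff.mpr hi, by simp⟩, ?_⟩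
    rw [add_sub_cancel_right]
    exact mem_elts.mp hy

/-- a generating family meets at least `2 ^ corank` cosets -/
lemma pow_crk_le (M : AddSubgroup G) (s : Finset ι) (f : ι → G)
    (hgen : M ⊔ AddSubgroup.closure (f '' s) = ⊤) :
    Nat.card M * 2 ^ crk M ≤ (sat M (FS s f)).card := by
  induction hn : s.card using Nat.strong_induction_on generalizing s M with
  | _ n ih =>
    rcases eq_or_ne M ⊤ with hM | hM
    · rw [hM, crk_top, pow_zero, mul_one]
      exact card_le_sat_FS _ _ _
    · obtain ⟨i, hi, hfi⟩ : ∃ i ∈ s, f i ∉ M := by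
        by_contra hcon
        push Not at hcon
        apply hM
        rw [← hgen]
        symm
        rw [sup_eq_left, AddSubgroup.closure_le]
        rintro _ ⟨i, hi, rfl⟩
        exact hcon i hi
      set L := M ⊔ AddSubgroup.zmultiples (f i) with hL
      have hsplit : s.erase i ∪ {i} = s := by
        rw [union_comm, ← insert_eq, insert_erase hi]
      have h1 := ih (s.erase i).card (by rw [← hn]; exact card_erase_lt_of_mem hi) L (s.erase i) (by
        rw [eq_top_iff, ← hgen]
        apply sup_le (le_sup_left.trans le_sup_left)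
        rw [AddSubgroup.closure_le]
        rintro _ ⟨k, hk, rfl⟩
        rcases eq_or_ne k i with rfl | hki
        · exact AddSubgroup.mem_sup_left (AddSubgroup.mem_sup_right
            (AddSubgroup.mem_zmultiples _))
        · exact AddSubgroup.mem_sup_right (AddSubgroup.subset_closure
            ⟨k, mem_erase.mpr ⟨hki, hk⟩, rfl⟩)) rfl
      have h2 := card_prod_le M L f {i} (s.erase i) (by simp) (by
        intro k hk
        rw [mem_singleton.mp hk]
        exact AddSubgroup.mem_sup_right (AddSubgroup.mem_zmultiples _)) le_sup_left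
      rw [hsplit] at h2
      have h3 := two_card_le_sat (M := M) (s := {i}) (f := f) (mem_singleton_self i) hfi
      have h4 : crk M ≤ crk L + 1 := crk_sup_le M (f i)
      have hLpos : 0 < Nat.card L := Nat.card_pos
      have h5 : (Nat.card L * 2 ^ crk L) * (2 * Nat.card M) ≤
          (sat M (FS s f)).card * Nat.card L :=
        (Nat.mul_le_mul h1 h3).trans h2
      have h6 : Nat.card M * 2 ^ (crk L + 1) ≤ (sat M (FS s f)).card := by
        apply Nat.le_of_mul_le_mul_right _ hLpos
        calc Nat.card M * 2 ^ (crk L + 1) * Nat.card L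
            = (Nat.card L * 2 ^ crk L) * (2 * Nat.card M) := by ring
          _ ≤ _ := h5
      refine le_trans (Nat.mul_le_mul_left _ (Nat.pow_le_pow_right (by norm_num) h4)) h6

end Sat

end Pool.Agent.Helper64.Rho
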