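import Mathlib
import Pool.Agent.Helper64.Rho.Corank

set_option autoImplicit false

namespace Pool.Agent.Helper64.Rho

open Finset

section Stab

variable {G : Type*} [AddCommGroup G] [Fintype G] [DecidableEq G]

/-- the stabiliser of a finite set -/
def stab (X : Finset G) : AddSubgroup G where
  carrier := {g | ∀ x, x ∈ X ↔ x + g ∈ X}
  zero_mem' := fun x => by rw [add_zero]
  add_mem' := by
    intro a b ha hb x
    rw [ha x, hb (x + a), add_assoc]
  neg_mem' := by
    intro a ha x
    rw [ha (x + -a)]
    simp

omit [Fintype G] [DecidableEq G] in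
lemma mem_stab {X : Finset G} {g : G} : g ∈ stab X ↔ ∀ x, x ∈ X ↔ x + g ∈ X := Iff.rfl

lemma le_stab_sat (M : AddSubgroup G) (Y : Finset G) : M ≤ stab (sat M Y) := by
  intro g hg x
  constructor
  · intro hx
    exact add_mem_sat hx hg
  · intro hx
    have := add_mem_sat hx (M.neg_mem hg)
    simpa using this

lemma sat_eq_of_le_stab {M K : AddSubgroup G} {Y : Finset G} (hMK : M ≤ K)
    (hK : K ≤ stab (sat M Y)) : sat K Y = sat M Y := by
  ext x
  constructor
  · intro hx
    obtain ⟨y, hy, hxy⟩ := mem_sat.mp hx
    have h1 := (mem_stab.mp (hK hxy) y).mp (subset_sat M Y hy)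
    simpa using h1
  · intro hx
    obtain ⟨y, hy, hxy⟩ := mem_sat.mp hx
    exact mem_sat.mpr ⟨y, hy, hMK hxy⟩

variable {ι : Type*} [DecidableEq ι]

/-- every new element adds at least one coset -/
lemma linear_growth (M : AddSubgroup G) (s : Finset ι) (f : ι → G) (hf : ∀ i ∈ s, f i ∉ M)
    (hst : stab (sat M (FS s f)) ≤ M) :
    Nat.card M * (s.card + 1) ≤ (sat M (FS s f)).card := by
  have key : ∀ t ⊆ s, Nat.card M * (t.card + 1) ≤ (sat M (FS t f)).card := by
    intro t
    induction t using Finset.induction_on with
    | empty =>
      intro _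
      simpa using card_le_sat_FS M (∅ : Finset ι) f
    | insert i t hi ih =>
      intro hts
      have hts' : t ⊆ s := (subset_insert i t).trans hts
      have his : i ∈ s := hts (mem_insert_self i t)
      have h1 := ih hts'
      rw [card_insert_of_notMem hi]
      -- some element leaves
      obtain ⟨y, hy, hyi⟩ : ∃ y ∈ sat M (FS t f), y + f i ∉ sat M (FS t f) := by
        by_contra hcon
        push Not at hcon
        apply hf i his
        apply hst
        have hinj : Function.Injective (fun x : G => x + f i) := add_left_injective _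
        have himg : (sat M (FS t f)).image (fun x => x + f i) = sat M (FS t f) := by
          apply eq_of_subset_of_card_le
          · intro x hx
            obtain ⟨y, hy, rfl⟩ := mem_image.mp hx
            exact hcon y hy
          · rw [card_image_of_injective _ hinj]
        have hback : ∀ y ∈ sat M (FS t f), y - f i ∈ sat M (FS t f) := by
          intro y hy
          rw [← himg] at hy
          obtain ⟨z, hz, rfl⟩ := mem_image.mp hy
          simpa using hz
        have hsplit : t ∪ (s \ t) = s := union_sdiff_of_subset hts'
        have hmem : ∀ x, x ∈ sat M (FS s f) ↔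
            ∃ y ∈ sat M (FS t f), ∃ b ∈ FS (s \ t) f, x = y + b := by
          intro x
          constructor
          · intro hx
            obtain ⟨z, hz, hxz⟩ := mem_sat.mp hx
            rw [← hsplit] at hz
            obtain ⟨a, ha, b, hb, rfl⟩ := (mem_FS_union disjoint_sdiff f).mp hz
            refine ⟨x - b, mem_sat.mpr ⟨a, ha, ?_⟩, b, hb, by abel⟩
            have : x - b - a = x - (a + b) := by abel
            rw [this]
            exact hxz
          · rintro ⟨y, hy, b, hb, rfl⟩
            obtain ⟨z, hz, hxz⟩ := mem_sat.mp hy
            refine mem_sat.mpr ⟨z + b, ?_, by rwa [add_sub_add_right_eq_sub]⟩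
            rw [← hsplit]
            exact (mem_FS_union disjoint_sdiff f).mpr ⟨z, hz, b, hb, rfl⟩
        rw [mem_stab]
        intro x
        rw [hmem, hmem]
        constructor
        · rintro ⟨y, hy, b, hb, rfl⟩
          exact ⟨y + f i, hcon y hy, b, hb, by abel⟩
        · rintro ⟨y, hy, b, hb, hx⟩
          refine ⟨y - f i, hback y hy, b, hb, ?_⟩
          have : x = x + f i - f i := by abel
          rw [this, hx]
          abel
      -- the new coset
      have h2 : Disjoint (sat M (FS t f)) ((elts M).image (fun x => (y + f i) + x)) := by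
        rw [disjoint_left]
        intro x hx hx2
        obtain ⟨z, hz, rfl⟩ := mem_image.mp hx2
        apply hyi
        have := add_mem_sat hx (M.neg_mem (mem_elts.mp hz))
        simpa using this
      have h3 : sat M (FS t f) ∪ (elts M).image (fun x => (y + f i) + x) ⊆
          sat M (FS (insert i t) f) := by
        intro x hx
        rcases mem_union.mp hx with hx | hx
        · obtain ⟨z, hz, hxz⟩ := mem_sat.mp hx
          exact mem_sat.mpr ⟨z, FS_mono (subset_insert i t) f hz, hxz⟩
        · obtain ⟨w, hw, rfl⟩ := mem_image.mp hx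
          obtain ⟨z, hz, hyz⟩ := mem_sat.mp hy
          refine mem_sat.mpr ⟨z + f i, ?_, ?_⟩
          · rw [FS_insert hi, mem_union]
            exact Or.inr (mem_image_of_mem _ hz)
          · have : y + f i + w - (z + f i) = (y - z) + w := by abel
            rw [this]
            exact M.add_mem hyz (mem_elts.mp hw)
      have h4 := card_le_card h3
      rw [card_union_of_disjoint h2, card_image_of_injective _ (add_right_injective _),
        card_elts] at h4
      calc Nat.card M * (t.card + 1 + 1) = Nat.card M * (t.card + 1) + Nat.card M := by ring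
        _ ≤ _ := by omega
  exact key s (Subset.refl s)

lemma arith_rank (r ρ α y : ℕ) (hr1 : 1 ≤ r) (hr : r ≤ ρ + 2) :
    2 ^ (r - 1) * (α + ρ + y + 2 + 2 - r) ≤ (α + 2) * (2 ^ ρ * (y + 2)) := by
  obtain ⟨δ, hδ⟩ : ∃ δ, ρ + 2 = r + δ := ⟨ρ + 2 - r, by omega⟩
  have e1 : α + ρ + y + 2 + 2 - r = α + y + 2 + δ := by omega
  rw [e1]
  have h1 : δ + 1 ≤ 2 ^ δ := Nat.lt_two_pow_self
  have h2 : α + y + 2 + δ ≤ (α + y + 2) * 2 ^ δ := by
    calc α + y + 2 + δ ≤ (α + y + 2) * (δ + 1) := by nlinarith
      _ ≤ _ := Nat.mul_le_mul_left _ h1
  have h3 : 2 ^ (r - 1) * 2 ^ δ = 2 * 2 ^ ρ := by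
    rw [← pow_add]
    have : r - 1 + δ = ρ + 1 := by omega
    rw [this, pow_succ]
    ring
  calc 2 ^ (r - 1) * (α + y + 2 + δ) ≤ 2 ^ (r - 1) * ((α + y + 2) * 2 ^ δ) :=
        Nat.mul_le_mul_left _ h2
    _ = (2 ^ (r - 1) * 2 ^ δ) * (α + y + 2) := by ring
    _ = 2 ^ ρ * (2 * (α + y + 2)) := by rw [h3]; ring
    _ ≤ 2 ^ ρ * ((α + 2) * (y + 2)) := Nat.mul_le_mul_left _ (by nlinarith)
    _ = _ := by ring

/-- The structural lower bound for subset sums of families. -/
theorem weak (M : AddSubgroup G) (s : Finset ι) (f : ι → G) (hf : ∀ i ∈ s, f i ∉ M)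
    (hgen : M ⊔ AddSubgroup.closure (f '' s) = ⊤) (hM : M ≠ ⊤) :
    Nat.card M * (2 ^ (crk M - 1) * (s.card + 2 - crk M)) ≤ (sat M (FS s f)).card ∨
      ∃ K : AddSubgroup G, M < K ∧ Nat.card K * 2 ^ crk K ≤ (sat M (FS s f)).card := by
  classical
  induction hn : Nat.card G - Nat.card M using Nat.strong_induction_on generalizing s M with
  | _ n ih =>
    obtain ⟨i, hi⟩ : s.Nonempty := by
      by_contra h
      rw [not_nonempty_iff_eq_empty] at h
      subst h
      apply hM
      simpa using hgen
    set t := f i with ht
    have htM : t ∉ M := hf i hi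
    set L := M ⊔ AddSubgroup.zmultiples t with hL
    have hML : M ≤ L := le_sup_left
    have htL : t ∈ L := AddSubgroup.mem_sup_right (AddSubgroup.mem_zmultiples _)
    have hMLlt : M < L := lt_of_le_of_ne hML (fun h => htM (h ▸ htL))
    set s1 := s.filter (fun k => f k ∈ L) with hs1
    set s2 := s.filter (fun k => f k ∉ L) with hs2
    have hi1 : i ∈ s1 := mem_filter.mpr ⟨hi, htL⟩
    have hdisj : Disjoint s2 s1 := by
      rw [disjoint_left]
      intro k hk hk'
      exact (mem_filter.mp hk).2 (mem_filter.mp hk').2
    have hunion : s2 ∪ s1 = s := by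
      rw [union_comm]
      exact filter_union_filter_not_eq _ s
    have hcards : s1.card + s2.card = s.card :=
      card_filter_add_card_filter_not (s := s) (fun k => f k ∈ L)
    have hs1pos : 1 ≤ s1.card := card_pos.mpr ⟨i, hi1⟩
    have hprod := card_prod_le M L f s1 s2 hdisj (fun k hk => (mem_filter.mp hk).2) hML
    rw [hunion] at hprod
    have hMpos : 0 < Nat.card M := Nat.card_pos
    have hLpos : 0 < Nat.card L := Nat.card_pos
    have hcrkML : crk M ≤ crk L + 1 := crk_sup_le M t
    have hcrkM : 1 ≤ crk M := crk_pos hM
    -- stabiliser of the inner part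
    set K := stab (sat M (FS s1 f)) with hK
    have hMK : M ≤ K := le_stab_sat M _
    have hKL : K ≤ L := by
      intro g hg
      have h1 : (0 : G) ∈ sat M (FS s1 f) := subset_sat _ _ (zero_mem_FS _ _)
      have h2 := (mem_stab.mp hg 0).mp h1
      rw [zero_add] at h2
      obtain ⟨y, hy, hgy⟩ := mem_sat.mp h2
      have h3 : y ∈ L := FS_subset_of_mem (fun k hk => (mem_filter.mp hk).2) hy
      have h4 : g = (g - y) + y := by abel
      rw [h4]
      exact L.add_mem (hML hgy) h3
    have hsatK : sat K (FS s1 f) = sat M (FS s1 f) := sat_eq_of_le_stab hMK le_rfl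
    rcases eq_or_ne L ⊤ with hLtop | hLtop
    · -- one generator suffices
      have hs2e : s2 = ∅ := by
        rw [hs2, filter_eq_empty_iff]
        intro k _ hk
        exact hk (by rw [hLtop]; trivial)
      have hs1e : s1 = s := by
        rw [hs2e, empty_union] at hunion
        exact hunion
      have hcrk1 : crk M = 1 := by
        rw [hLtop, crk_top] at hcrkML
        omega
      rcases eq_or_ne K M with hKM | hKM
      · left
        have h1 := linear_growth M s f hf (by rw [← hs1e]; exact hKM.le)
        rw [hcrk1]
        simpa using h1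
      · right
        refine ⟨K, lt_of_le_of_ne hMK hKM.symm, ?_⟩
        rw [← hs1e, ← hsatK]
        apply pow_crk_le
        rw [hs1e, eq_top_iff, ← hgen]
        exact sup_le_sup_right hMK _
    · -- the quotient by L
      have hf2 : ∀ k ∈ s2, f k ∉ L := fun k hk => (mem_filter.mp hk).2
      have hgen2 : L ⊔ AddSubgroup.closure (f '' s2) = ⊤ := by
        rw [eq_top_iff, ← hgen]
        apply sup_le (hML.trans le_sup_left)
        rw [AddSubgroup.closure_le]
        rintro _ ⟨k, hk, rfl⟩
        by_cases hkL : f k ∈ L
        · exact AddSubgroup.mem_sup_left hkL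
        · exact AddSubgroup.mem_sup_right (AddSubgroup.subset_closure
            ⟨k, mem_filter.mpr ⟨hk, hkL⟩, rfl⟩)
      have hcrkL : 1 ≤ crk L := crk_pos hLtop
      have hs2c : crk L ≤ s2.card := by
        refine (crk_le (S := s2.image f) ?_).trans card_image_le
        rw [coe_image]
        exact hgen2
      have hpow := pow_crk_le L s2 f hgen2
      rcases eq_or_ne K M with hKM | hKM
      · have h1 := linear_growth M s1 f (fun k hk => hf k (mem_filter.mp hk).1) hKM.le
        have hlt : Nat.card M < Nat.card L := by
          have h2 : (M : Set G).ncard < (L : Set G).ncard :=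
            Set.ncard_lt_ncard hMLlt (Set.toFinite _)
          exact h2
        have hle : Nat.card L ≤ Nat.card G :=
          Nat.card_le_card_of_injective (Subtype.val : L → G) Subtype.val_injective
        rcases ih (Nat.card G - Nat.card L) (by omega) L s2 hf2 hgen2 hLtop rfl with h2 | h2
        · left
          obtain ⟨ρ, hρ⟩ : ∃ ρ, crk L = ρ + 1 := ⟨crk L - 1, by omega⟩
          obtain ⟨y, hy⟩ : ∃ y, s2.card = ρ + 1 + y := ⟨s2.card - (ρ + 1), by omega⟩
          obtain ⟨α, hα⟩ : ∃ α, s1.card = α + 1 := ⟨s1.card - 1, by omega⟩
          have h3 := arith_rank (crk M) ρ α y hcrkM (by omega)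
          have e1 : s.card + 2 - crk M = α + ρ + y + 2 + 2 - crk M := by omega
          rw [e1]
          have e2 : s2.card + 2 - crk L = y + 2 := by omega
          have e3 : crk L - 1 = ρ := by omega
          rw [e2, e3] at h2
          rw [hα] at h1
          have h4 : (Nat.card L * (2 ^ ρ * (y + 2))) * (Nat.card M * (α + 1 + 1)) ≤
              (sat M (FS s f)).card * Nat.card L := (Nat.mul_le_mul h2 h1).trans hprod
          apply Nat.le_of_mul_le_mul_right _ hLpos
          calc Nat.card M * (2 ^ (crk M - 1) * (α + ρ + y + 2 + 2 - crk M)) * Nat.card L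
              ≤ Nat.card M * ((α + 2) * (2 ^ ρ * (y + 2))) * Nat.card L := by gcongr
            _ = (Nat.card L * (2 ^ ρ * (y + 2))) * (Nat.card M * (α + 1 + 1)) := by ring
            _ ≤ _ := h4
        · right
          obtain ⟨K', hLK', hK'⟩ := h2
          obtain ⟨K'', hMK'', -, hcard, u, hu⟩ := exchange M K' t (hML.trans hLK'.le)
            (hLK'.le htL)
          rw [← hL] at hcard
          have hlt' : Nat.card L < Nat.card K' := by
            have h2 : (L : Set G).ncard < (K' : Set G).ncard :=
              Set.ncard_lt_ncard hLK' (Set.toFinite _)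
            exact h2
          refine ⟨K'', lt_of_le_of_ne hMK'' ?_, ?_⟩
          · rintro rfl
            have h5 : Nat.card M * Nat.card L < Nat.card M * Nat.card K' :=
              Nat.mul_lt_mul_of_pos_left hlt' hMpos
            rw [hcard, mul_comm] at h5
            exact lt_irrefl _ h5
          · have h3 := two_card_le_sat (M := M) (s := s1) (f := f) hi1 htM
            have h4 : (Nat.card K' * 2 ^ crk K') * (2 * Nat.card M) ≤
                (sat M (FS s f)).card * Nat.card L := (Nat.mul_le_mul hK' h3).trans hprod
            have h5 : crk K'' ≤ crk K' + 1 := by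
              rw [hu]
              exact crk_sup_le K'' u
            apply Nat.le_of_mul_le_mul_right _ hLpos
            calc Nat.card K'' * 2 ^ crk K'' * Nat.card L
                ≤ Nat.card K'' * 2 ^ (crk K' + 1) * Nat.card L := by
                  gcongr
                  norm_num
              _ = (Nat.card K'' * Nat.card L) * (2 * 2 ^ crk K') := by ring
              _ = (Nat.card K' * 2 ^ crk K') * (2 * Nat.card M) := by rw [hcard]; ring
              _ ≤ _ := h4
      · right
        refine ⟨K, lt_of_le_of_ne hMK hKM.symm, ?_⟩
        rcases eq_or_ne K L with hKL' | hKL'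
        · have h1 : Nat.card K ≤ (sat M (FS s1 f)).card := by
            rw [← hsatK]
            exact card_le_sat_FS K s1 f
          have h2 : (Nat.card L * 2 ^ crk L) * Nat.card K ≤
              (sat M (FS s f)).card * Nat.card L := (Nat.mul_le_mul hpow h1).trans hprod
          rw [hKL'] at h2 ⊢
          apply Nat.le_of_mul_le_mul_right _ hLpos
          exact h2
        · have htK : t ∉ K := by
            intro h
            apply hKL'
            apply le_antisymm hKL
            rw [hL]
            apply sup_le hMK
            rw [AddSubgroup.zmultiples_le]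
            exact h
          have h1 : 2 * Nat.card K ≤ (sat M (FS s1 f)).card := by
            rw [← hsatK]
            exact two_card_le_sat hi1 htK
          have h2 : (Nat.card L * 2 ^ crk L) * (2 * Nat.card K) ≤
              (sat M (FS s f)).card * Nat.card L := (Nat.mul_le_mul hpow h1).trans hprod
          have h3 : crk K ≤ crk L + 1 := by
            have h4 : K ⊔ AddSubgroup.zmultiples t = L := by
              apply le_antisymm
              · apply sup_le hKL
                rw [AddSubgroup.zmultiples_le]
                exact htL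
              · exact sup_le_sup_right hMK _
            rw [← h4]
            exact crk_sup_le K t
          apply Nat.le_of_mul_le_mul_right _ hLpos
          calc Nat.card K * 2 ^ crk K * Nat.card L
              ≤ Nat.card K * 2 ^ (crk L + 1) * Nat.card L := by
                gcongr
                norm_num
            _ = (Nat.card L * 2 ^ crk L) * (2 * Nat.card K) := by ring
            _ ≤ _ := h2

end Stab

end Pool.Agent.Helper64.Rho
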