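import Mathlib

set_option autoImplicit false

namespace Pool.Agent.Helper64.Rho

open Finset

section Olson

variable {G : Type*} [AddCommGroup G] [Fintype G] [DecidableEq G]

/-- the number of elements of `B` that leave `B` when `x` is added -/
def lam (B : Finset G) (x : G) : ℕ := (B.filter fun b => b + x ∉ B).card

omit [Fintype G] in
lemma lam_zero (B : Finset G) : lam B 0 = 0 := by
  unfold lam
  rw [card_eq_zero, filter_eq_empty_iff]
  intro b hb
  simpa using hb

omit [Fintype G] in
lemma lam_le (B : Finset G) (x : G) : lam B x ≤ B.card := card_filter_le _ _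

omit [Fintype G] in
lemma lam_add_card (B : Finset G) (x : G) :
    lam B x + (B.filter fun b => b + x ∈ B).card = B.card := by
  unfold lam
  rw [add_comm]
  exact card_filter_add_card_filter_not (s := B) (fun b => b + x ∈ B)

omit [Fintype G] in
lemma lam_neg (B : Finset G) (x : G) : lam B (-x) = lam B x := by
  have h1 := lam_add_card B x
  have h2 := lam_add_card B (-x)
  have h3 : (B.filter fun b => b + -x ∈ B).card = (B.filter fun b => b + x ∈ B).card := by
    apply card_bij (fun b _ => b + -x)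
    · intro b hb
      rw [mem_filter] at hb ⊢
      exact ⟨hb.2, by simpa using hb.1⟩
    · intro a _ b _ h
      exact add_right_cancel h
    · intro b hb
      rw [mem_filter] at hb
      exact ⟨b + x, by rw [mem_filter]; exact ⟨hb.2, by simpa using hb.1⟩, by simp⟩
  omega

omit [Fintype G] in
lemma lam_add (B : Finset G) (x y : G) : lam B (x + y) ≤ lam B x + lam B y := by
  unfold lam
  have h1 : (B.filter fun b => b + (x + y) ∉ B) ⊆
      (B.filter fun b => b + x ∉ B) ∪ (B.filter fun b => b + x ∈ B ∧ b + x + y ∉ B) := by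
    intro b hb
    rw [mem_filter] at hb
    rw [mem_union, mem_filter, mem_filter]
    by_cases h : b + x ∈ B
    · right
      refine ⟨hb.1, h, ?_⟩
      rw [add_assoc]
      exact hb.2
    · left
      exact ⟨hb.1, h⟩
  refine (card_le_card h1).trans ((card_union_le _ _).trans ?_)
  apply Nat.add_le_add_left
  apply card_le_card_of_injOn (fun b => b + x)
  · intro b hb
    simp only [coe_filter, Set.mem_ofPred_eq] at hb ⊢
    exact ⟨hb.2.1, hb.2.2⟩
  · intro a _ b _ h
    exact add_right_cancel h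

omit [Fintype G] in
lemma card_union_shift (B : Finset G) (x : G) :
    (B ∪ B.image (· + x)).card = B.card + lam B x := by
  have h1 : B ∪ B.image (· + x) = B ∪ (B.filter fun b => b + x ∉ B).image (· + x) := by
    ext y
    simp only [mem_union, mem_image, mem_filter]
    constructor
    · rintro (h | ⟨b, hb, rfl⟩)
      · exact Or.inl h
      · by_cases h : b + x ∈ B
        · exact Or.inl h
        · exact Or.inr ⟨b, ⟨hb, h⟩, rfl⟩
    · rintro (h | ⟨b, ⟨hb, _⟩, rfl⟩)
      · exact Or.inl h
      · exact Or.inr ⟨b, hb, rfl⟩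
  rw [h1, card_union_of_disjoint, card_image_of_injective _ (add_left_injective x)]
  · rfl
  · rw [disjoint_left]
    intro y hy hy2
    obtain ⟨b, hb, rfl⟩ := mem_image.mp hy2
    exact (mem_filter.mp hb).2 hy

lemma lam_compl (B : Finset G) (x : G) : lam Bᶜ x = lam B x := by
  rw [← lam_neg B x]
  unfold lam
  apply card_bij (fun b _ => b + x)
  · intro b hb
    rw [mem_filter] at hb ⊢
    simp only [mem_compl, not_not] at hb
    exact ⟨hb.2, by simpa using hb.1⟩
  · intro a _ b _ h
    exact add_right_cancel h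
  · intro b hb
    rw [mem_filter] at hb
    refine ⟨b + -x, ?_, by simp⟩
    rw [mem_filter]
    simp only [mem_compl, not_not]
    exact ⟨hb.2, by simpa using hb.1⟩

/-- the number of `x` with `lam B x ≤ v` -/
def cnt (B : Finset G) (v : ℕ) : ℕ := (univ.filter fun x => lam B x ≤ v).card

lemma sum_cnt (B : Finset G) : ∑ v ∈ range B.card, cnt B v = B.card ^ 2 := by
  have h1 : ∑ v ∈ range B.card, cnt B v = ∑ x : G, (B.card - lam B x) := by
    unfold cnt
    simp only [card_filter]
    rw [sum_comm]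
    refine sum_congr rfl fun x _ => ?_
    rw [← card_filter]
    have : (range B.card).filter (fun v => lam B x ≤ v) = Ico (lam B x) B.card := by
      ext v
      simp only [mem_filter, mem_range, mem_Ico]
      omega
    rw [this, Nat.card_Ico]
  rw [h1]
  have h2 : ∀ x : G, B.card - lam B x = (B.filter fun b => b + x ∈ B).card := by
    intro x
    have := lam_add_card B x
    omega
  simp only [h2]
  rw [pow_two, ← card_product]
  simp only [card_filter]
  rw [sum_comm]
  have h3 : ∀ b ∈ B, ∑ x : G, (if b + x ∈ B then 1 else 0) = B.card := by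
    intro b _
    rw [← card_filter]
    apply card_bij (fun x _ => b + x)
    · intro x hx
      exact (mem_filter.mp hx).2
    · intro a _ c _ h
      exact add_left_cancel h
    · intro c hc
      exact ⟨c - b, by rw [mem_filter]; exact ⟨mem_univ _, by simpa using hc⟩, by simp⟩
  rw [sum_congr rfl h3, sum_const, card_product, smul_eq_mul]

lemma cnt_mono (B : Finset G) {v w : ℕ} (h : v ≤ w) : cnt B v ≤ cnt B w := by
  unfold cnt
  apply card_le_card
  intro x hx
  rw [mem_filter] at hx ⊢
  exact ⟨hx.1, hx.2.trans h⟩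

/-- if `F v` is not everything one leaves it by a generator -/
lemma exists_leave (B S : Finset G) (hS : AddSubgroup.closure (S : Set G) = ⊤) (ℓ v : ℕ)
    (hℓ : ∀ x ∈ S, lam B x ≤ ℓ) (hne : cnt B v ≠ Fintype.card G) :
    ∃ y, lam B y ≤ v + ℓ ∧ v < lam B y := by
  by_contra hcon
  push Not at hcon
  apply hne
  unfold cnt
  rw [← card_univ]
  congr 1
  rw [filter_eq_self]
  intro x hx0
  clear hx0
  have hx : x ∈ AddSubgroup.closure (S : Set G) := by rw [hS]; trivial
  induction hx using AddSubgroup.closure_induction_right with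
  | zero => rw [lam_zero]; exact Nat.zero_le _
  | add_right x _ y hy ih =>
    apply hcon
    exact (lam_add B x y).trans (by have := hℓ y hy; omega)
  | add_neg_cancel x _ y hy ih =>
    apply hcon
    refine (lam_add B x (-y)).trans ?_
    rw [lam_neg]
    have := hℓ y hy
    omega

lemma cnt_step (B S : Finset G) (hS : AddSubgroup.closure (S : Set G) = ⊤) (h0 : (0 : G) ∉ S)
    (ℓ v : ℕ) (hℓ : ∀ x ∈ S, lam B x ≤ ℓ) (hne : cnt B (v + ℓ) ≠ Fintype.card G) :
    cnt B v + (S.card + 1) ≤ cnt B (v + 3 * ℓ) := by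
  obtain ⟨y, hy1, hy2⟩ := exists_leave B S hS ℓ (v + ℓ) hℓ hne
  have hins : (insert 0 S).card = S.card + 1 := card_insert_of_notMem h0
  have hi : ((insert 0 S).image (y + ·)).card = S.card + 1 := by
    rw [card_image_of_injective _ (add_right_injective y), hins]
  rw [← hi]
  unfold cnt
  rw [← card_union_of_disjoint]
  · apply card_le_card
    intro x hx
    rw [mem_filter]
    refine ⟨mem_univ _, ?_⟩
    rcases mem_union.mp hx with hx | hx
    · exact (mem_filter.mp hx).2.trans (by omega)
    · obtain ⟨σ, hσ, rfl⟩ := mem_image.mp hx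
      refine (lam_add B y σ).trans ?_
      rcases mem_insert.mp hσ with rfl | hσ
      · rw [lam_zero]; omega
      · have := hℓ σ hσ
        omega
  · rw [disjoint_left]
    intro x hx1 hx2
    obtain ⟨σ, hσ, rfl⟩ := mem_image.mp hx2
    have h1 := (mem_filter.mp hx1).2
    have h2 : lam B y ≤ lam B (y + σ) + lam B (-σ) := by
      have := lam_add B (y + σ) (-σ)
      simpa using this
    rw [lam_neg] at h2
    rcases mem_insert.mp hσ with rfl | hσ
    · rw [lam_zero] at h2; omega
    · have := hℓ σ hσ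
      omega

lemma cnt_first (B S : Finset G) (h0 : (0 : G) ∉ S)
    (ℓ v : ℕ) (hℓ : ∀ x ∈ S, lam B x ≤ ℓ) (hv : ℓ ≤ v) :
    S.card + 1 ≤ cnt B v := by
  rw [← card_insert_of_notMem h0]
  unfold cnt
  apply card_le_card
  intro x hx
  rw [mem_filter]
  refine ⟨mem_univ _, ?_⟩
  rcases mem_insert.mp hx with rfl | hx
  · rw [lam_zero]; omega
  · exact (hℓ x hx).trans hv

lemma cnt_lower (B S : Finset G) (hS : AddSubgroup.closure (S : Set G) = ⊤) (h0 : (0 : G) ∉ S)
    (ℓ : ℕ) (hℓ1 : 1 ≤ ℓ) (hℓ : ∀ x ∈ S, lam B x ≤ ℓ) (v : ℕ)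
    (hne : ∀ u < v, cnt B u ≠ Fintype.card G) :
    (S.card + 1) * ((v + 2 * ℓ) / (3 * ℓ)) ≤ cnt B v := by
  induction v using Nat.strong_induction_on with
  | _ v ih =>
    rcases Nat.lt_or_ge v ℓ with h1 | h1
    · rw [Nat.div_eq_of_lt (by omega)]
      simp
    · rcases Nat.lt_or_ge v (3 * ℓ) with h2 | h2
      · have h3 : (v + 2 * ℓ) / (3 * ℓ) = 1 := by
          apply Nat.div_eq_of_lt_le <;> omega
        rw [h3, mul_one]
        exact cnt_first B S h0 ℓ v hℓ h1
      · have h3 : (v + 2 * ℓ) / (3 * ℓ) = (v - 3 * ℓ + 2 * ℓ) / (3 * ℓ) + 1 := by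
          rw [← Nat.add_div_right _ (by omega : 0 < 3 * ℓ)]
          congr 1
          omega
        rw [h3, mul_add, mul_one]
        have h4 := ih (v - 3 * ℓ) (by omega) (fun u hu => hne u (by omega))
        have h5 := cnt_step B S hS h0 ℓ (v - 3 * ℓ) hℓ (hne _ (by omega))
        rw [Nat.sub_add_cancel h2] at h5
        omega

lemma sum_div (q : ℕ) (hq : 1 ≤ q) (U : ℕ) :
    2 * q * ∑ u ∈ range U, u / q + q * U = U ^ 2 + (U % q) * (q - U % q) := by
  induction U with
  | zero => simp
  | succ U ih =>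
    rw [sum_range_succ, mul_add]
    have hd := Nat.div_add_mod U q
    have hlt := Nat.mod_lt U (by omega : 0 < q)
    have hm : (U + 1) % q = if U % q + 1 = q then 0 else U % q + 1 := by
      rw [Nat.add_mod]
      rcases Nat.lt_or_ge 1 q with h1 | h1
      · rw [Nat.mod_eq_of_lt h1]
        split_ifs with h
        · rw [h, Nat.mod_self]
        · exact Nat.mod_eq_of_lt (by omega)
      · have : q = 1 := by omega
        subst this
        simp [Nat.mod_one]
    rw [hm]
    obtain ⟨c, hc⟩ : ∃ c, q = U % q + 1 + c := ⟨q - (U % q + 1), by omega⟩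
    generalize hb : U % q = b at *
    generalize ha : U / q = a at *
    split_ifs with h
    · have hc0 : c = 0 := by omega
      subst hc0
      have e1 : q - b = 1 := by omega
      rw [e1] at ih
      have e2 : U = q * a + b := hd.symm
      simp only [zero_mul, add_zero]
      nlinarith
    · have e1 : q - b = 1 + c := by omega
      have e3 : q - (b + 1) = c := by omega
      rw [e1] at ih
      rw [e3]
      have e2 : U = q * a + b := hd.symm
      nlinarith

lemma sum_div_shift (ℓ : ℕ) (hℓ : 1 ≤ ℓ) (V : ℕ) :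
    V ^ 2 + ℓ * V ≤ 6 * ℓ * ∑ v ∈ range V, (v + 2 * ℓ) / (3 * ℓ) + 2 * ℓ ^ 2 := by
  have h1 : ∑ u ∈ range (2 * ℓ + V), u / (3 * ℓ) = ∑ v ∈ range V, (v + 2 * ℓ) / (3 * ℓ) := by
    rw [sum_range_add]
    rw [sum_eq_zero (s := range (2 * ℓ))]
    · rw [zero_add]
      refine sum_congr rfl fun v _ => ?_
      rw [add_comm]
    · intro u hu
      rw [mem_range] at hu
      exact Nat.div_eq_of_lt (by omega)
  have h2 := sum_div (3 * ℓ) (by omega) (2 * ℓ + V)
  rw [h1] at h2
  have h3 : 0 ≤ ((2 * ℓ + V) % (3 * ℓ)) * (3 * ℓ - (2 * ℓ + V) % (3 * ℓ)) := Nat.zero_le _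
  nlinarith

omit [AddCommGroup G] [Fintype G] [DecidableEq G] in
lemma arith_aux (β ℓ s d : ℤ) (hd0 : 0 ≤ d) (hd : d < ℓ) (hβ : 2 * ℓ < β) (hs : 6 * ℓ < s)
    (h : s * d + (β - ℓ - d) * (2 * β) ≤ β ^ 2) : False := by
  have hℓ : 0 < ℓ := by omega
  rcases le_total (2 * β) s with h5 | h5
  · have h6 : 2 * β * d ≤ s * d := mul_le_mul_of_nonneg_right h5 hd0
    have h7 : β * (2 * ℓ) < β * β := mul_lt_mul_of_pos_left hβ (by omega)
    nlinarith
  · have h6 : d * (2 * β - s) ≤ ℓ * (2 * β - s) :=
      mul_le_mul_of_nonneg_right hd.le (by linarith)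
    have h7 : ℓ * (6 * ℓ) < ℓ * s := mul_lt_mul_of_pos_left hs hℓ
    have h8 : 0 ≤ (β - 2 * ℓ) ^ 2 := sq_nonneg _
    have h9 : 0 < ℓ * ℓ := mul_pos hℓ hℓ
    nlinarith

/-- The growth lemma (after Olson). -/
lemma olson (B S : Finset G) (hS : AddSubgroup.closure (S : Set G) = ⊤) (h0 : (0 : G) ∉ S)
    (hB : B.Nonempty) (hB2 : 2 * B.card ≤ Fintype.card G) :
    ∃ x ∈ S, B.card ≤ 2 * lam B x ∨ S.card + 1 ≤ 6 * lam B x := by
  classical
  by_contra hcon
  push Not at hcon
  have hb1 : 1 ≤ B.card := hB.card_pos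
  -- the maximal value
  have hSne : S.Nonempty := by
    by_contra h
    rw [not_nonempty_iff_eq_empty] at h
    subst h
    simp only [coe_empty, AddSubgroup.closure_empty] at hS
    have hc : Fintype.card G = 1 := by
      rw [Fintype.card_eq_one_iff]
      refine ⟨0, fun y => ?_⟩
      have : y ∈ (⊥ : AddSubgroup G) := by rw [hS]; trivial
      exact AddSubgroup.mem_bot.mp this
    omega
  obtain ⟨x0, hx0, hmax⟩ := S.exists_max_image (lam B) hSne
  set ℓ := lam B x0 with hℓdef
  have hc := hcon x0 hx0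
  have hsum := sum_cnt B
  set β := B.card with hβ
  set s := S.card + 1 with hs
  rcases Nat.eq_zero_or_pos ℓ with hℓ0 | hℓ1
  · -- no growth at all
    have h1 : ∀ v, cnt B v = Fintype.card G := by
      intro v
      by_contra hne
      obtain ⟨y, hy1, hy2⟩ := exists_leave B S hS ℓ v hmax hne
      omega
    simp only [h1, sum_const, card_range, smul_eq_mul] at hsum
    nlinarith
  · -- first full level
    obtain ⟨V, hV1, hV2, hV3⟩ : ∃ V ≤ β, (∀ u < V, cnt B u ≠ Fintype.card G) ∧
        (∀ u, V ≤ u → u < β → cnt B u = Fintype.card G) := by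
      by_cases h : ∃ u, u < β ∧ cnt B u = Fintype.card G
      · have hf := Nat.find_spec h
        refine ⟨Nat.find h, hf.1.le, ?_, ?_⟩
        · intro u hu he
          exact Nat.find_min h hu ⟨hu.trans hf.1, he⟩
        · intro u hu _
          apply le_antisymm
          · exact card_le_univ _
          · rw [← hf.2]
            exact cnt_mono B hu
      · push Not at h
        exact ⟨β, le_refl _, fun u hu => h u hu, fun u h1 h2 => absurd h2 (by omega)⟩
    have hsplit : ∑ v ∈ range β, cnt B v = ∑ v ∈ range V, cnt B v + (β - V) * Fintype.card G := by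
      obtain ⟨c, hc⟩ : ∃ c, β = V + c := ⟨β - V, by omega⟩
      rw [hc, sum_range_add]
      congr 1
      rw [sum_congr rfl (g := fun _ => Fintype.card G)]
      · simp
      · intro x hx
        rw [mem_range] at hx
        exact hV3 _ (by omega) (by omega)
    have hlow : s * ∑ v ∈ range V, (v + 2 * ℓ) / (3 * ℓ) ≤ ∑ v ∈ range V, cnt B v := by
      rw [mul_sum]
      apply sum_le_sum
      intro v hv
      rw [mem_range] at hv
      exact cnt_lower B S hS h0 ℓ hℓ1 hmax v (fun u hu => hV2 u (by omega))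
    have hlow2 : s * (V - ℓ) ≤ ∑ v ∈ range V, cnt B v := by
      rcases Nat.le_total V ℓ with h | h
      · rw [Nat.sub_eq_zero_of_le h]; simp
      · obtain ⟨c, hc⟩ : ∃ c, V = ℓ + c := ⟨V - ℓ, by omega⟩
        rw [hc, sum_range_add]
        have : s * (ℓ + c - ℓ) ≤ ∑ x ∈ range c, cnt B (ℓ + x) := by
          rw [Nat.add_sub_cancel_left, mul_comm, ← smul_eq_mul]
          rw [← card_range c, ← sum_const]
          simp only [card_range]
          apply sum_le_sum
          intro v _
          exact cnt_first B S h0 ℓ _ hmax (by omega)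
        omega
    have hdiv := sum_div_shift ℓ hℓ1 V
    rw [hsplit] at hsum
    obtain ⟨c, hc2⟩ : ∃ c, β = V + c := ⟨β - V, by omega⟩
    have hcc : β - V = c := by omega
    rw [hcc] at hsum
    have hcn : c * (2 * β) ≤ c * Fintype.card G := Nat.mul_le_mul_left _ hB2
    obtain ⟨hc1, hc3⟩ := hc
    rcases Nat.lt_or_ge V (2 * ℓ) with hV | hV
    · -- few levels
      rcases Nat.le_total V ℓ with h | h
      · -- β² ≥ 2β(β−V) ≥ 2β(β−ℓ)
        have : c * (2 * β) ≤ β ^ 2 := by omega
        nlinarith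
      · obtain ⟨d, hd⟩ : ∃ d, V = ℓ + d := ⟨V - ℓ, by omega⟩
        have e1 : V - ℓ = d := by omega
        rw [e1] at hlow2
        have e2 : s * d + c * (2 * β) ≤ β ^ 2 := by omega
        have e3 : d < ℓ := by omega
        have e4 : (c : ℤ) = β - ℓ - d := by omega
        have e5 : (s : ℤ) * d + c * (2 * β) ≤ β ^ 2 := by exact_mod_cast e2
        rw [e4] at e5
        exact arith_aux β ℓ s d (by positivity) (by exact_mod_cast e3) (by exact_mod_cast hc1)
          (by exact_mod_cast hc3) e5
    · have e1 : 6 * ℓ * ∑ v ∈ range V, (v + 2 * ℓ) / (3 * ℓ) ≤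
          s * ∑ v ∈ range V, (v + 2 * ℓ) / (3 * ℓ) := Nat.mul_le_mul_right _ hc3.le
      have e2 : V ^ 2 + ℓ * V + c * (2 * β) ≤ β ^ 2 + 2 * ℓ ^ 2 := by omega
      have e3 : ℓ * (2 * ℓ) ≤ ℓ * V := Nat.mul_le_mul_left _ hV
      have e5 : c ^ 2 + ℓ * V ≤ 2 * ℓ ^ 2 := by
        rw [hc2] at e2
        nlinarith
      rcases Nat.eq_zero_or_pos c with h | h
      · subst h
        have e6 : ℓ * (2 * ℓ + 1) ≤ ℓ * V := Nat.mul_le_mul_left _ (by omega)
        nlinarith
      · have e7 : 1 ≤ c ^ 2 := Nat.one_le_pow _ _ h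
        nlinarith

/-- The growth lemma for all proper nonempty sets. -/
lemma growth (B S : Finset G) (hS : AddSubgroup.closure (S : Set G) = ⊤) (h0 : (0 : G) ∉ S)
    (hB : B.Nonempty) (hB2 : B ≠ univ) :
    ∃ x ∈ S, min B.card (Fintype.card G - B.card) ≤ 2 * lam B x ∨ S.card + 1 ≤ 6 * lam B x := by
  have hlt : B.card < Fintype.card G := by
    rw [← card_univ]
    exact card_lt_card (ssubset_univ_iff.mpr hB2)
  rcases Nat.lt_or_ge (Fintype.card G) (2 * B.card) with h | h
  · have hc : Bᶜ.card = Fintype.card G - B.card := card_compl B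
    obtain ⟨x, hx, h1⟩ := olson Bᶜ S hS h0 (by rw [← card_pos]; omega) (by omega)
    rw [lam_compl, hc] at h1
    exact ⟨x, hx, h1.imp_left fun h2 => (min_le_right _ _).trans h2⟩
  · obtain ⟨x, hx, h1⟩ := olson B S hS h0 hB h
    exact ⟨x, hx, h1.imp_left fun h2 => (min_le_left _ _).trans h2⟩

end Olson

end Pool.Agent.Helper64.Rho
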