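import Mathlib
import Pool.Agent.Helper64.Rho.Sums
import Pool.Agent.Helper64.Rho.Olson

set_option autoImplicit false

namespace Pool.Agent.Helper64.Rho

open Finset

section Greedy

variable {K : Type*} [AddCommGroup K] [Fintype K] [DecidableEq K]

/-- pigeonhole: two large sets add up to everything -/
lemma exists_add_of_card (X Y : Finset K) (h : Fintype.card K < X.card + Y.card) (g : K) :
    ∃ x ∈ X, ∃ y ∈ Y, g = x + y := by
  have h1 : (X ∩ Y.image (fun y => g - y)).Nonempty := by
    rw [nonempty_iff_ne_empty]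
    intro he
    have h2 : Disjoint X (Y.image (fun y => g - y)) := disjoint_iff_inter_eq_empty.mpr he
    have h3 := card_union_of_disjoint h2
    rw [card_image_of_injective _ (sub_right_injective)] at h3
    have h4 := card_le_univ (X ∪ Y.image (fun y => g - y))
    omega
  obtain ⟨x, hx⟩ := h1
  rw [mem_inter, mem_image] at hx
  obtain ⟨hx, y, hy, rfl⟩ := hx
  exact ⟨_, hx, y, hy, by abel⟩

lemma greedy_step (D : Finset K) (h0 : (0 : K) ∉ D) (m w : ℕ)
    (hrob : ∀ L : AddSubgroup K, L ≠ ⊤ → ∀ X ⊆ D, X.card < w → ∃ x ∈ D \ X, x ∉ L)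
    (hm : m + 2 * w ≤ 2 * D.card + 4) (X : Finset K) (hX : X ⊆ D) (hXw : X.card < w) :
    FS D id = univ ∨ ∃ x ∈ D \ X, ∃ l : ℕ, (FS (insert x X) id).card = (FS X id).card + l ∧
      ((FS X id).card ≤ 2 * l ∨ m ≤ 12 * l) := by
  have hcard : (D \ X).card = D.card - X.card := card_sdiff_of_subset hX
  have hle := card_le_card hX
  have hclos : AddSubgroup.closure ((D \ X : Finset K) : Set K) = ⊤ := by
    by_contra hne
    obtain ⟨x, hx, hxL⟩ := hrob _ hne X hX hXw
    exact hxL (AddSubgroup.subset_closure hx)
  have h0' : (0 : K) ∉ D \ X := fun h => h0 (mem_sdiff.mp h).1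
  rcases eq_or_ne (FS X id) univ with hB | hB
  · left
    rw [← univ_subset_iff, ← hB]
    exact FS_mono hX id
  · rcases Nat.lt_or_ge (Fintype.card K) ((FS X id).card + (insert 0 (D \ X)).card) with h | h
    · left
      rw [eq_univ_iff_forall]
      intro g
      obtain ⟨x, hx, y, hy, rfl⟩ := exists_add_of_card _ _ h g
      rcases mem_insert.mp hy with rfl | hy
      · rw [add_zero]
        exact FS_mono hX id hx
      · have hyX := (mem_sdiff.mp hy).2
        have h1 : insert y X ⊆ D := insert_subset (mem_sdiff.mp hy).1 hX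
        apply FS_mono h1 id
        rw [FS_insert hyX, mem_union]
        right
        exact mem_image.mpr ⟨x, hx, rfl⟩
    · right
      rw [card_insert_of_notMem h0', hcard] at h
      obtain ⟨x, hx, hgr⟩ := growth (FS X id) (D \ X) hclos h0' ⟨0, zero_mem_FS X id⟩ hB
      refine ⟨x, hx, lam (FS X id) x, ?_, ?_⟩
      · rw [FS_insert (mem_sdiff.mp hx).2]
        exact card_union_shift _ _
      · rw [hcard] at hgr
        rcases hgr with hgr | hgr
        · rcases min_le_iff.mp hgr with h2 | h2
          · exact Or.inl h2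
          · right
            omega
        · right
          omega

lemma greedy (D : Finset K) (h0 : (0 : K) ∉ D) (m Lg q : ℕ)
    (hrob : ∀ L : AddSubgroup K, L ≠ ⊤ → ∀ X ⊆ D, X.card < 2 * Lg + q → ∃ x ∈ D \ X, x ∉ L)
    (hm : m + 2 * (2 * Lg + q) ≤ 2 * D.card + 4) (hq : 12 * Fintype.card K ≤ q * m)
    (hL : m < 2 ^ (Lg + 1)) : FS D id = univ := by
  by_contra hne
  have step := fun X hX hXw => (greedy_step D h0 m (2 * Lg + q) hrob hm X hX hXw).resolve_left hne
  -- first phase
  have phase1 : ∀ i ≤ 2 * Lg, ∃ X ⊆ D, X.card = i ∧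
      (3 ^ i ≤ 2 ^ i * (FS X id).card ∨ m ≤ 6 * (FS X id).card) := by
    intro i
    induction i with
    | zero =>
      intro _
      exact ⟨∅, empty_subset _, rfl, Or.inl (by simp)⟩
    | succ i ih =>
      intro hi
      obtain ⟨X, hX, hXc, hb⟩ := ih (by omega)
      rcases Nat.eq_zero_or_pos q with hq0 | hq0
      · exfalso
        subst hq0
        have : 0 < Fintype.card K := Fintype.card_pos
        omega
      obtain ⟨x, hx, l, hl, hgr⟩ := step X hX (by omega)
      refine ⟨insert x X, insert_subset (mem_sdiff.mp hx).1 hX, ?_, ?_⟩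
      · rw [card_insert_of_notMem (mem_sdiff.mp hx).2, hXc]
      · rw [hl]
        rcases Nat.lt_or_ge (6 * (FS X id).card) m with h1 | h1
        · left
          have h2 : (FS X id).card ≤ 2 * l := by
            rcases hgr with h | h
            · exact h
            · omega
          have h3 := hb.resolve_right (by omega)
          calc 3 ^ (i + 1) = 3 * 3 ^ i := by ring
            _ ≤ 3 * (2 ^ i * (FS X id).card) := by gcongr
            _ = 2 ^ i * (3 * (FS X id).card) := by ring
            _ ≤ 2 ^ i * (2 * ((FS X id).card + l)) := Nat.mul_le_mul_left _ (by omega)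
            _ = 2 ^ (i + 1) * ((FS X id).card + l) := by ring
        · right
          omega
  obtain ⟨X1, hX1, hX1c, hb1⟩ := phase1 _ le_rfl
  have hb1' : m ≤ 6 * (FS X1 id).card := by
    rcases hb1 with h | h
    · have h1 : 2 ^ Lg * 2 ^ (2 * Lg) ≤ 2 ^ (2 * Lg) * (FS X1 id).card := by
        refine le_trans ?_ h
        rw [pow_mul, pow_mul, ← mul_pow]
        gcongr
        norm_num
      have h2 : 2 ^ Lg ≤ (FS X1 id).card := by
        rw [mul_comm] at h1
        exact Nat.le_of_mul_le_mul_left h1 (by positivity)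
      rw [pow_succ] at hL
      omega
    · exact h
  -- second phase
  have phase2 : ∀ i ≤ q, ∃ X ⊆ D, X.card = 2 * Lg + i ∧ m ≤ 6 * (FS X id).card ∧
      i * m ≤ 12 * (FS X id).card := by
    intro i
    induction i with
    | zero =>
      intro _
      exact ⟨X1, hX1, by omega, hb1', by omega⟩
    | succ i ih =>
      intro hi
      obtain ⟨X, hX, hXc, hb, hb'⟩ := ih (by omega)
      obtain ⟨x, hx, l, hl, hgr⟩ := step X hX (by omega)
      refine ⟨insert x X, insert_subset (mem_sdiff.mp hx).1 hX, ?_, ?_, ?_⟩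
      · rw [card_insert_of_notMem (mem_sdiff.mp hx).2, hXc]
        omega
      · omega
      · rw [hl]
        have h1 : m ≤ 12 * l := by omega
        have h2 : (i + 1) * m = i * m + m := by ring
        omega
  obtain ⟨X2, hX2, hX2c, -, hb2⟩ := phase2 _ le_rfl
  apply hne
  rw [← univ_subset_iff]
  have h1 : FS X2 id = univ := by
    rw [← card_eq_iff_eq_univ]
    have := card_le_univ (FS X2 id)
    omega
  rw [← h1]
  exact FS_mono hX2 id

end Greedy

end Pool.Agent.Helper64.Rho
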