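import Mathlib
import Pool.Agent.Helper64.Rho.Sums
import Pool.Agent.Helper64.Rho.Greedy

set_option autoImplicit false

namespace Pool.Agent.Helper64.Rho

open Finset

section Core

variable {G : Type*} [AddCommGroup G] [Fintype G] [DecidableEq G]

lemma arith_log (m L : ℕ) (hL : 2 ^ L ≤ m) (hm : 288 < m) (hm2 : m < 2 ^ (L + 1)) :
    12 * L * (L - 5) ≤ m ∧ 24 * L + 12 ≤ m ∧ 8 ≤ L := by
  have h8 : 8 ≤ L := by
    by_contra h
    have h1 : L + 1 ≤ 8 := by omega
    have h2 : 2 ^ (L + 1) ≤ 2 ^ 8 := Nat.pow_le_pow_right (by norm_num) h1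
    norm_num at h2
    omega
  rcases Nat.eq_or_lt_of_le h8 with h | h
  · subst h
    refine ⟨by omega, by omega, le_rfl⟩
  · have h9 : 12 * L * (L - 5) ≤ 2 ^ L ∧ 24 * L + 12 ≤ 2 ^ L := by
      clear hm2 hL
      induction L, h using Nat.le_induction with
      | base => norm_num
      | succ L hL ih =>
        obtain ⟨ih1, ih2⟩ := ih (by omega)
        obtain ⟨c, rfl⟩ : ∃ c, L = c + 9 := ⟨L - 9, by omega⟩
        have e1 : c + 9 - 5 = c + 4 := by omega
        have e2 : c + 9 + 1 - 5 = c + 5 := by omega
        rw [e1] at ih1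
        rw [e2, pow_succ]
        constructor
        · nlinarith
        · omega
    exact ⟨h9.1.trans hL, h9.2.trans hL, h8⟩

omit [DecidableEq G] in
lemma two_card_le_of_lt {L K : AddSubgroup G} (h : L < K) : 2 * Nat.card L ≤ Nat.card K := by
  obtain ⟨d, hd⟩ := AddSubgroup.card_dvd_of_le h.le
  have hpos : 0 < Nat.card L := Nat.card_pos
  have hlt : Nat.card L < Nat.card K := by
    have h1 : (L : Set G).ncard < (K : Set G).ncard := Set.ncard_lt_ncard h (Set.toFinite _)
    exact h1
  have hd2 : 2 ≤ d := by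
    by_contra hcon
    have : d ≤ 1 := by omega
    interval_cases d <;> omega
  rw [hd]
  nlinarith

/-- The core lemma: a large set contains two thirds of its elements in a subgroup that is covered
by the sums of these elements. -/
theorem core (A : Finset G) (h0 : (0 : G) ∉ A) (h1 : 144 * Nat.card G ≤ A.card ^ 2)
    (h2 : 2 * A.card < Nat.card G) :
    ∃ K : AddSubgroup G, ∃ A1 ⊆ A, (∀ x ∈ A1, x ∈ K) ∧ 2 * A.card ≤ 3 * A1.card ∧
      ∀ g ∈ K, g ∈ FS A1 id := by
  classical
  set m := A.card with hm
  set n := Nat.card G with hn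
  set Lg := Nat.log 2 m with hLg
  have hm288 : 288 < m := by
    by_contra hcon
    have h3 : m ≤ 288 := by omega
    nlinarith
  have hLle : 2 ^ Lg ≤ m := Nat.pow_log_le_self 2 (by omega)
  have hLlt : m < 2 ^ (Lg + 1) := Nat.lt_pow_succ_log_self (by norm_num) m
  obtain ⟨ha1, ha2, ha3⟩ := arith_log m Lg hLle hm288 hLlt
  -- number of elements outside
  let c : AddSubgroup G → ℕ := fun K => (A.filter (fun x => x ∉ K)).card
  let Φ : AddSubgroup G → ℕ := fun K =>
    m * c K + 24 * Nat.card K + m * (2 * Lg) * Nat.log 2 (Nat.card K)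
  have hctop : c ⊤ = 0 := by
    simp only [c]
    rw [card_eq_zero, filter_eq_empty_iff]
    intro x _ h
    exact h (AddSubgroup.mem_top x)
  obtain ⟨K, hK1, hK2⟩ := Set.exists_min_image {K : AddSubgroup G | 2 * c K ≤ m} Φ (Set.toFinite _)
    ⟨⊤, by simp [hctop]⟩
  have hK1 : 2 * c K ≤ m := hK1
  have hK2 : ∀ L : AddSubgroup G, 2 * c L ≤ m → Φ K ≤ Φ L := hK2
  set k := Nat.card K with hk
  have hkpos : 0 < k := Nat.card_pos
  have hkn : k ≤ n := Nat.card_le_card_of_injective (Subtype.val : K → G) Subtype.val_injective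
  -- the part inside
  set A1 := A.filter (fun x => x ∈ K) with hA1
  have hA1c : A1.card + c K = m := card_filter_add_card_filter_not (s := A) (fun x => x ∈ K)
  have hA1k : A1.card ≤ k := by
    have e1 : A1.card = (A1 : Set G).ncard := (Set.ncard_coe_finset A1).symm
    have e2 : k = (K : Set G).ncard := rfl
    rw [e1, e2]
    apply Set.ncard_le_ncard _ (Set.toFinite _)
    intro x hx
    exact (mem_filter.mp hx).2
  -- logarithms
  have hlogk : Lg ≤ Nat.log 2 k + 1 := by
    have e1 : 2 ^ Lg ≤ 2 * k := by omega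
    have e2 : Lg ≤ Nat.log 2 (2 * k) := Nat.le_log_of_pow_le (by norm_num) e1
    rw [mul_comm, Nat.log_mul_base (by norm_num) (by omega)] at e2
    exact e2
  have hlogn : Nat.log 2 n ≤ 2 * Lg - 6 := by
    have e1 : n < 2 ^ (2 * Lg - 5) := by
      have e2 : 144 * n < 2 ^ (2 * Lg + 2) := by
        calc 144 * n ≤ m ^ 2 := h1
          _ < (2 ^ (Lg + 1)) ^ 2 := Nat.pow_lt_pow_left hLlt (by norm_num)
          _ = 2 ^ (2 * Lg + 2) := by rw [← pow_mul]; congr 1; ring
      have e3 : 2 ^ (2 * Lg + 2) = 2 ^ 7 * 2 ^ (2 * Lg - 5) := by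
        rw [← pow_add]
        congr 1
        omega
      rw [e3] at e2
      norm_num at e2
      omega
    have e4 : Nat.log 2 n < 2 * Lg - 5 := Nat.log_lt_of_lt_pow (by omega) e1
    omega
  -- few elements outside
  have hcK : 3 * c K ≤ m := by
    have e0 := hK2 ⊤ (by rw [hctop]; omega)
    simp only [Φ, hctop, mul_zero, zero_add] at e0
    have e2 : Nat.card (⊤ : AddSubgroup G) = n := AddSubgroup.card_top
    rw [e2] at e0
    have e1 : m * c K + 24 * k + m * (2 * Lg) * Nat.log 2 k ≤
        24 * n + m * (2 * Lg) * Nat.log 2 n := e0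
    have e3 : Nat.log 2 n ≤ Nat.log 2 k + (Lg - 5) := by omega
    have e4 : m * (2 * Lg) * Nat.log 2 n ≤ m * (2 * Lg) * (Nat.log 2 k + (Lg - 5)) :=
      Nat.mul_le_mul_left _ e3
    have e5 : m * c K ≤ 24 * n + m * (2 * Lg) * (Lg - 5) := by
      rw [mul_add] at e4
      omega
    have e6 : m * (12 * Lg * (Lg - 5)) ≤ m * m := Nat.mul_le_mul_left _ ha1
    have e7 : m * (3 * c K) ≤ m * m := by
      have e8 : m * (12 * Lg * (Lg - 5)) = 6 * (m * (2 * Lg) * (Lg - 5)) := by ring
      have e9 : m * (3 * c K) = 3 * (m * c K) := by ring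
      rw [pow_two] at h1
      omega
    exact Nat.le_of_mul_le_mul_left e7 (by omega)
  -- the number of steps
  set q := (12 * k + m - 1) / m with hq
  have hq1 : 12 * k ≤ q * m := by
    have e1 := Nat.lt_div_mul_add (a := 12 * k + m - 1) (b := m) (by omega)
    rw [← hq] at e1
    omega
  have hq2 : q * m ≤ 12 * k + m - 1 := Nat.div_mul_le_self _ _
  have hq3 : 12 * q ≤ m + 12 := by
    have e1 : q * m * 12 ≤ 144 * n + 12 * m := by omega
    have e2 : m * (12 * q) ≤ m * (m + 12) := by
      rw [pow_two] at h1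
      calc m * (12 * q) = q * m * 12 := by ring
        _ ≤ 144 * n + 12 * m := e1
        _ ≤ m * m + 12 * m := by omega
        _ = m * (m + 12) := by ring
    exact Nat.le_of_mul_le_mul_left e2 (by omega)
  have hw : 6 * (2 * Lg + q) ≤ m := by omega
  -- robustness
  have hrob : ∀ L < K, c K + (2 * Lg + q) ≤ c L := by
    intro L hL
    have hLpos : 0 < Nat.card L := Nat.card_pos
    have hLK := two_card_le_of_lt hL
    rcases Nat.lt_or_ge m (2 * c L) with h3 | h3
    · omega
    · have e1 : m * c K + 24 * k + m * (2 * Lg) * Nat.log 2 k ≤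
          m * c L + 24 * Nat.card L + m * (2 * Lg) * Nat.log 2 (Nat.card L) := hK2 L h3
      have e2 : Nat.log 2 (Nat.card L) + 1 ≤ Nat.log 2 k := by
        rw [← Nat.log_mul_base (by norm_num) (by omega), mul_comm]
        exact Nat.log_mono_right hLK
      have e3 : m * (2 * Lg) * (Nat.log 2 (Nat.card L) + 1) ≤ m * (2 * Lg) * Nat.log 2 k :=
        Nat.mul_le_mul_left _ e2
      have e4 : m * c K + m * (2 * Lg) + 12 * k ≤ m * c L := by
        rw [mul_add, mul_one] at e3
        omega
      have e5 : m * (c K + (2 * Lg + q)) < m * (c L + 1) := by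
        have e6 : m * (c K + (2 * Lg + q)) = m * c K + m * (2 * Lg) + q * m := by ring
        rw [e6, mul_add]
        omega
      have e7 := Nat.lt_of_mul_lt_mul_left e5
      omega
  refine ⟨K, A1, filter_subset _ _, fun x hx => (mem_filter.mp hx).2, by omega, ?_⟩
  -- greedy inside K
  have hFt : Fintype K := Fintype.ofFinite _
  let D : Finset K := A.subtype (fun x => x ∈ K)
  have hmemD : ∀ x : K, x ∈ D ↔ (x : G) ∈ A := fun x => mem_subtype
  have hDc : D.card = A1.card := card_subtype _ _
  have hD0 : (0 : K) ∉ D := by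
    rw [hmemD]
    exact h0
  have hfull : FS D id = univ := by
    apply greedy D hD0 m Lg q _ _ _ hLlt
    · intro L hL X hX hXw
      have hlt : L.map K.subtype < K := by
        apply lt_of_le_of_ne
        · intro x hx
          obtain ⟨y, _, rfl⟩ := AddSubgroup.mem_map.mp hx
          exact y.2
        · intro he
          apply hL
          rw [AddSubgroup.eq_top_iff']
          intro x
          have h3 : (x : G) ∈ L.map K.subtype := by rw [he]; exact x.2
          obtain ⟨y, hy, hyx⟩ := AddSubgroup.mem_map.mp h3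
          have : y = x := Subtype.ext hyx
          rw [← this]
          exact hy
      have h3 := hrob _ hlt
      by_contra hcon
      push Not at hcon
      -- elements of A outside L are outside K or in X
      have h4 : A.filter (fun x => x ∉ L.map K.subtype) ⊆
          A.filter (fun x => x ∉ K) ∪ X.map (Function.Embedding.subtype (· ∈ K)) := by
        intro x hx
        rw [mem_filter] at hx
        rw [mem_union, mem_filter, mem_map]
        by_cases hxK : x ∈ K
        · right
          by_contra hcon2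
          push Not at hcon2
          have h5 : (⟨x, hxK⟩ : K) ∈ D \ X := by
            rw [mem_sdiff]
            refine ⟨(hmemD _).mpr hx.1, fun h => hcon2 _ h rfl⟩
          have h6 := hcon _ h5
          exact hx.2 (AddSubgroup.mem_map.mpr ⟨_, h6, rfl⟩)
        · left
          exact ⟨hx.1, hxK⟩
      have h5 := (card_le_card h4).trans (card_union_le _ _)
      have h6 : (X.map (Function.Embedding.subtype (· ∈ K))).card = X.card := card_map _
      simp only [c] at h3
      omega
    · rw [hDc]
      omega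
    · rw [← Nat.card_eq_fintype_card]
      exact hq1
  intro g hg
  have h3 : (⟨g, hg⟩ : K) ∈ FS D id := by rw [hfull]; exact mem_univ _
  obtain ⟨t, ht, hts⟩ := mem_FS.mp h3
  refine mem_FS.mpr ⟨t.map (Function.Embedding.subtype _), ?_, ?_⟩
  · intro x hx
    obtain ⟨y, hy, rfl⟩ := mem_map.mp hx
    exact mem_filter.mpr ⟨(hmemD y).mp (ht hy), y.2⟩
  · rw [sum_map]
    have h4 := congrArg K.subtype hts
    rw [map_sum] at h4
    exact h4

end Core

end Pool.Agent.Helper64.Rho
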