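import Mathlib

set_option autoImplicit false

namespace Pool.Agent.Helper64.Rho

/-- The set of all sums of distinct elements of `A`, including the empty sum. -/
def subsetSums {G : Type*} [AddCommGroup G] (A : Finset G) : Set G :=
  {x | ∃ B : Finset G, B ⊆ A ∧ ∑ b ∈ B, b = x}

/-- The numbers of subset sums of the generating sets of `G` of size `m` that avoid `0`. -/
def sizes (G : Type*) [AddCommGroup G] (m : ℕ) : Set ℕ :=
  {k | ∃ A : Finset G, (0 : G) ∉ A ∧ A.card = m ∧ AddSubgroup.closure (A : Set G) = ⊤ ∧
    (subsetSums A).ncard = k}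

/-- The least number of subset sums of a generating set of `G` of size `m` that avoids `0`. -/
noncomputable def rho (G : Type*) [AddCommGroup G] (m : ℕ) : ℕ := sInf (sizes G m)

/-- `|H| * (2 ^ r + 2 ^ (r - 1) * max (0, m + 1 - |H| - r))` where `r` is the least number of
generators of `G / H`. -/
noncomputable def cost {G : Type*} [AddCommGroup G] [Finite G] (m : ℕ) (H : AddSubgroup G) : ℕ :=
  Nat.card H * (2 ^ AddGroup.rank (G ⧸ H) +
    2 ^ (AddGroup.rank (G ⧸ H) - 1) * (m + 1 - Nat.card H - AddGroup.rank (G ⧸ H)))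

end Pool.Agent.Helper64.Rho
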