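import Mathlib
import Pool.Agent.Helper64.Rho.Defs
import Pool.Agent.Helper64.Rho.Core
import Pool.Agent.Helper64.Rho.Weak

set_option autoImplicit false

namespace Pool.Agent.Helper64.Rho

open Finset

section Lower

variable {G : Type*} [AddCommGroup G] [Fintype G] [DecidableEq G]

omit [Fintype G] [DecidableEq G] in
lemma cost_eq [Finite G] (m : ℕ) (H : AddSubgroup G) :
    cost m H = Nat.card H * (2 ^ crk H + 2 ^ (crk H - 1) * (m + 1 - Nat.card H - crk H)) := rfl

omit [Fintype G] [DecidableEq G] in
lemma cost_top [Finite G] (m : ℕ) (h : m < Nat.card G) : cost m (⊤ : AddSubgroup G) = Nat.card G := by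
  rw [cost_eq, crk_top, AddSubgroup.card_top]
  have : m + 1 - Nat.card G - 0 = 0 := by omega
  rw [this]
  simp

lemma card_filter_mem_le (A : Finset G) (h0 : (0 : G) ∉ A) (H : AddSubgroup G)
    (A1 : Finset G) (hA1 : A1 ⊆ A) (hH : ∀ x ∈ A1, x ∈ H) : A1.card + 1 ≤ Nat.card H := by
  rw [← card_elts, ← card_insert_of_notMem (fun h => h0 (hA1 h))]
  apply card_le_card
  intro x hx
  rw [mem_elts]
  rcases mem_insert.mp hx with rfl | hx
  · exact H.zero_mem
  · exact hH x hx

/-- The lower bound. -/
theorem lower (A : Finset G) (h0 : (0 : G) ∉ A) (hgen : AddSubgroup.closure (A : Set G) = ⊤)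
    (h1 : 144 * Nat.card G ≤ A.card ^ 2) (h2 : 2 * A.card < Nat.card G) :
    ∃ H : AddSubgroup G, A.card < 2 * Nat.card H ∧ cost A.card H ≤ (FS A id).card := by
  classical
  obtain ⟨K, A1, hA1, hK, h23, hcov⟩ := core A h0 h1 h2
  set m := A.card with hm
  have hmpos : 0 < m := by
    rcases Nat.eq_zero_or_pos m with h | h
    · rw [h] at h1
      have : 0 < Nat.card G := Nat.card_pos
      omega
    · exact h
  set X := FS A id with hX
  set H := stab X with hH
  have hsplit : ∀ x, x ∈ X ↔ ∃ a ∈ FS A1 id, ∃ b ∈ FS (A \ A1) id, x = a + b := by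
    intro x
    have : X = FS (A1 ∪ (A \ A1)) id := by rw [union_sdiff_of_subset hA1]
    rw [this]
    exact mem_FS_union disjoint_sdiff id
  have hKH : K ≤ H := by
    intro g hg
    rw [mem_stab]
    intro x
    rw [hsplit, hsplit]
    constructor
    · rintro ⟨a, ha, b, hb, rfl⟩
      have haK : a ∈ K := FS_subset_of_mem hK ha
      exact ⟨a + g, hcov _ (K.add_mem haK hg), b, hb, by abel⟩
    · rintro ⟨a, ha, b, hb, hx⟩
      have haK : a ∈ K := FS_subset_of_mem hK ha
      refine ⟨a - g, hcov _ (K.sub_mem haK hg), b, hb, ?_⟩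
      have : x = x + g - g := by abel
      rw [this, hx]
      abel
  have hA1H := card_filter_mem_le A h0 H A1 hA1 (fun x hx => hKH (hK x hx))
  have h0X : (0 : G) ∈ X := zero_mem_FS A id
  rcases eq_or_ne H ⊤ with hHt | hHt
  · refine ⟨⊤, ?_, ?_⟩
    · rw [AddSubgroup.card_top]
      omega
    · rw [cost_top _ (by omega)]
      have : X = univ := by
        rw [eq_univ_iff_forall]
        intro g
        have hg : g ∈ H := by rw [hHt]; trivial
        have := (mem_stab.mp hg 0).mp h0X
        rwa [zero_add] at this
      rw [this, card_univ, Nat.card_eq_fintype_card]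
  · set s := A.filter (fun x => x ∉ H) with hs
    set B := A.filter (fun x => x ∈ H) with hB
    have hsB : B.card + s.card = m := card_filter_add_card_filter_not (s := A) (fun x => x ∈ H)
    have hBH := card_filter_mem_le A h0 H B (filter_subset _ _)
      (fun x hx => (mem_filter.mp hx).2)
    have hsat : sat H (FS s id) = X := by
      ext x
      constructor
      · intro hx
        obtain ⟨y, hy, hxy⟩ := mem_sat.mp hx
        have h3 : y ∈ X := FS_mono (filter_subset _ _) id hy
        have h4 := (mem_stab.mp hxy y).mp h3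
        simpa using h4
      · intro hx
        have h3 : X = FS (s ∪ B) id := by
          have h5 : s ∪ B = A := by
            rw [union_comm]
            exact filter_union_filter_not_eq (fun x => x ∈ H) A
          rw [h5]
        have h4 : Disjoint s B := by
          rw [disjoint_left]
          intro k hk hk'
          exact (mem_filter.mp hk).2 (mem_filter.mp hk').2
        rw [h3] at hx
        obtain ⟨a, ha, b, hb, rfl⟩ := (mem_FS_union h4 id).mp hx
        refine mem_sat.mpr ⟨a, ha, ?_⟩
        rw [add_sub_cancel_left]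
        exact FS_subset_of_mem (fun k hk => (mem_filter.mp hk).2) hb
    have hgen' : H ⊔ AddSubgroup.closure (id '' (s : Set G)) = ⊤ := by
      rw [eq_top_iff, ← hgen, AddSubgroup.closure_le]
      intro x hx
      by_cases hxH : x ∈ H
      · exact AddSubgroup.mem_sup_left hxH
      · exact AddSubgroup.mem_sup_right (AddSubgroup.subset_closure
          ⟨x, mem_filter.mpr ⟨hx, hxH⟩, rfl⟩)
    have hcs : crk H ≤ s.card := by
      apply crk_le
      rw [Set.image_id] at hgen'
      exact hgen'
    have hcpos : 1 ≤ crk H := crk_pos hHt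
    rcases weak H s id (fun i hi => (mem_filter.mp hi).2) hgen' hHt with h3 | ⟨K', hK', h3⟩
    · refine ⟨H, by omega, ?_⟩
      rw [hsat] at h3
      refine le_trans ?_ h3
      rw [cost_eq]
      apply Nat.mul_le_mul_left
      obtain ⟨r, hr⟩ : ∃ r, crk H = r + 1 := ⟨crk H - 1, by omega⟩
      rw [hr, Nat.add_sub_cancel, pow_succ, ← mul_add]
      apply Nat.mul_le_mul_left
      omega
    · have h4 := two_card_le_of_lt hK'
      refine ⟨K', by omega, ?_⟩
      rw [hsat] at h3
      refine le_trans ?_ h3
      rw [cost_eq]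
      have : m + 1 - Nat.card K' - crk K' = 0 := by omega
      rw [this, mul_zero, add_zero]

end Lower

end Pool.Agent.Helper64.Rho
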