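import Mathlib
import Pool.Agent.Helper64.Rho.Lower

set_option autoImplicit false

namespace Pool.Agent.Helper64.Rho

open Finset

section Upper

variable {G : Type*} [AddCommGroup G] [Fintype G] [DecidableEq G]

/-- small generating sets of subgroups -/
lemma exists_gen (H : AddSubgroup G) :
    ∃ T : Finset G, (0 : G) ∉ T ∧ AddSubgroup.closure (T : Set G) = H ∧
      2 ^ T.card ≤ Nat.card H := by
  classical
  let P : ℕ → Prop := fun k => ∃ T : Finset G, T.card = k ∧ (0 : G) ∉ T ∧
    AddSubgroup.closure (T : Set G) ≤ H ∧ 2 ^ k ≤ Nat.card (AddSubgroup.closure (T : Set G))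
  have hbound : ∀ k, P k → k ≤ Nat.card G := by
    rintro k ⟨T, -, -, -, hk⟩
    have h1 : Nat.card (AddSubgroup.closure (T : Set G)) ≤ Nat.card G :=
      Nat.card_le_card_of_injective (Subtype.val : AddSubgroup.closure (T : Set G) → G)
        Subtype.val_injective
    exact (Nat.lt_two_pow_self).le.trans (hk.trans h1)
  have hP0 : P 0 := ⟨∅, rfl, by simp, by simp, by simp⟩
  obtain ⟨T, hTc, hT0, hTH, hk⟩ : P (Nat.findGreatest P (Nat.card G)) :=
    Nat.findGreatest_spec (m := 0) (Nat.zero_le _) hP0
  refine ⟨T, hT0, ?_, ?_⟩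
  · by_contra hne
    have hlt : AddSubgroup.closure (T : Set G) < H := lt_of_le_of_ne hTH hne
    obtain ⟨x, hxH, hxT⟩ := SetLike.exists_of_lt hlt
    have h1 : P (Nat.findGreatest P (Nat.card G) + 1) := by
      refine ⟨insert x T, ?_, ?_, ?_, ?_⟩
      · rw [card_insert_of_notMem (fun h => hxT (AddSubgroup.subset_closure h)), hTc]
      · rw [mem_insert, not_or]
        refine ⟨?_, hT0⟩
        rintro rfl
        exact hxT (AddSubgroup.zero_mem _)
      · rw [AddSubgroup.closure_le, coe_insert]
        intro y hy
        rcases Set.mem_insert_iff.mp hy with rfl | hy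
        · exact hxH
        · exact hTH (AddSubgroup.subset_closure hy)
      · have h2 : AddSubgroup.closure (T : Set G) <
            AddSubgroup.closure ((insert x T : Finset G) : Set G) := by
          apply lt_of_le_of_ne
          · apply AddSubgroup.closure_mono
            rw [coe_insert]
            exact Set.subset_insert _ _
          · intro he
            apply hxT
            rw [he]
            apply AddSubgroup.subset_closure
            rw [coe_insert]
            exact Set.mem_insert _ _
        have h3 := two_card_le_of_lt h2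
        rw [pow_succ]
        omega
    have h2 := Nat.le_findGreatest (hbound _ h1) h1
    omega
  · rw [hTc]
    refine hk.trans ?_
    exact Nat.card_le_card_of_injective (AddSubgroup.inclusion hTH)
      (AddSubgroup.inclusion_injective hTH)

lemma sq_le_pow (m : ℕ) : m ^ 2 ≤ 4 * 2 ^ m := by
  induction m with
  | zero => norm_num
  | succ m ih =>
    have h1 : m < 2 ^ m := Nat.lt_two_pow_self
    rw [pow_succ 2 m]
    nlinarith

lemma few_generators {m n k : ℕ} (h1 : 144 * n ≤ m ^ 2) (h2 : 2 ^ k ≤ n) : k ≤ m := by
  by_contra hcon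
  have h3 : 2 ^ m ≤ 2 ^ k := Nat.pow_le_pow_right (by norm_num) (by omega)
  have h4 := sq_le_pow m
  have h5 : 0 < 2 ^ m := by positivity
  omega

/-- subset sums of a set whose elements lie in few cosets -/
lemma card_FS_le_mul (H : AddSubgroup G) (A0 S : Finset G) (hd : Disjoint A0 S)
    (hA0 : ∀ x ∈ A0, x ∈ H) : (FS (A0 ∪ S) id).card ≤ Nat.card H * (FS S id).card := by
  rw [← card_elts, ← card_product]
  have h1 : FS (A0 ∪ S) id ⊆ (elts H ×ˢ FS S id).image (fun p => p.1 + p.2) := by
    intro x hx
    obtain ⟨a, ha, b, hb, rfl⟩ := (mem_FS_union hd id).mp hx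
    refine mem_image.mpr ⟨(a, b), mem_product.mpr ⟨mem_elts.mpr ?_, hb⟩, rfl⟩
    exact FS_subset_of_mem hA0 ha
  exact (card_le_card h1).trans card_image_le

/-- The upper bound. -/
theorem upper (H : AddSubgroup G) (m : ℕ) (hm : m < 2 * Nat.card H)
    (h1 : 144 * Nat.card G ≤ m ^ 2) (h2 : 2 * m < Nat.card G) :
    ∃ A : Finset G, (0 : G) ∉ A ∧ A.card = m ∧ AddSubgroup.closure (A : Set G) = ⊤ ∧
      (FS A id).card ≤ cost m H := by
  classical
  rcases eq_or_ne H ⊤ with hHt | hHt
  · -- any generating set
    subst hHt
    obtain ⟨T, hT0, hTc, hTk⟩ := exists_gen (⊤ : AddSubgroup G)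
    rw [AddSubgroup.card_top] at hTk
    have hTm := few_generators h1 hTk
    have hsub : T ⊆ univ.erase (0 : G) := by
      intro x hx
      rw [mem_erase]
      exact ⟨fun h => hT0 (h ▸ hx), mem_univ _⟩
    obtain ⟨A, hTA, hA, hAc⟩ := exists_subsuperset_card_eq hsub hTm (by
      rw [card_erase_of_mem (mem_univ _), card_univ, ← Nat.card_eq_fintype_card]
      omega)
    refine ⟨A, fun h => (mem_erase.mp (hA h)).1 rfl, hAc, ?_, ?_⟩
    · rw [eq_top_iff, ← hTc]
      exact AddSubgroup.closure_mono (coe_subset.mpr hTA)
    · rw [cost_top m (by omega), Nat.card_eq_fintype_card]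
      exact card_le_univ _
  · obtain ⟨S, hSc, hSg⟩ := exists_crk H
    have hr1 := crk_pos hHt
    set r := crk H with hr
    set h := Nat.card H with hh
    have hSH : ∀ x ∈ S, x ∉ H := by
      intro x hx hxH
      have h3 : H ⊔ AddSubgroup.closure ((S.erase x : Finset G) : Set G) = ⊤ := by
        rw [eq_top_iff, ← hSg]
        apply sup_le le_sup_left
        rw [AddSubgroup.closure_le]
        intro y hy
        rcases eq_or_ne y x with rfl | hyx
        · exact AddSubgroup.mem_sup_left hxH
        · exact AddSubgroup.mem_sup_right (AddSubgroup.subset_closure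
            (mem_coe.mpr (mem_erase.mpr ⟨hyx, hy⟩)))
      have h4 := crk_le h3
      rw [card_erase_of_mem hx] at h4
      omega
    have hSne : ∀ x ∈ S, ∀ y ∈ S, y ≠ x → y - x ∉ H := by
      intro x hx y hy hyx hH
      have h3 : H ⊔ AddSubgroup.closure ((S.erase y : Finset G) : Set G) = ⊤ := by
        rw [eq_top_iff, ← hSg]
        apply sup_le le_sup_left
        rw [AddSubgroup.closure_le]
        intro z hz
        rcases eq_or_ne z y with rfl | hzy
        · have h5 : (z - x) + x ∈ H ⊔ AddSubgroup.closure ((S.erase z : Finset G) : Set G) :=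
            AddSubgroup.add_mem_sup hH (AddSubgroup.subset_closure
              (mem_coe.mpr (mem_erase.mpr ⟨hyx.symm, hx⟩)))
          rwa [sub_add_cancel] at h5
        · exact AddSubgroup.mem_sup_right (AddSubgroup.subset_closure
            (mem_coe.mpr (mem_erase.mpr ⟨hzy, hz⟩)))
      have h4 := crk_le h3
      rw [card_erase_of_mem hy] at h4
      omega
    have hpow : h * 2 ^ r ≤ Nat.card G := by
      have h3 := pow_crk_le H S id (by rw [Set.image_id]; exact hSg)
      rw [Nat.card_eq_fintype_card]
      exact h3.trans (card_le_univ _)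
    have hH0 : (elts H).erase 0 ⊆ elts H := erase_subset _ _
    have hH0c : ((elts H).erase (0 : G)).card = h - 1 := by
      rw [card_erase_of_mem (mem_elts.mpr H.zero_mem), card_elts]
    have hhpos : 0 < h := Nat.card_pos
    rcases Nat.lt_or_ge (h + r) (m + 1) with hcase | hcase
    · -- all of H and a piece of one coset
      obtain ⟨x1, hx1⟩ : S.Nonempty := by
        rw [← card_pos]
        omega
      have hsub : ({x1} : Finset G) ⊆ (elts H).image (fun z => x1 + z) := by
        rw [singleton_subset_iff, mem_image]
        exact ⟨0, mem_elts.mpr H.zero_mem, by simp⟩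
      obtain ⟨P, hP1, hP, hPc⟩ := exists_subsuperset_card_eq (n := m + 2 - h - r) hsub
        (by rw [card_singleton]; omega)
        (by rw [card_image_of_injective _ (add_right_injective x1), card_elts]; omega)
      have hx1P : x1 ∈ P := hP1 (mem_singleton_self x1)
      have hPH : ∀ y ∈ P, y - x1 ∈ H := by
        intro y hy
        obtain ⟨z, hz, rfl⟩ := mem_image.mp (hP hy)
        rw [add_sub_cancel_left]
        exact mem_elts.mp hz
      have hPH' : ∀ y ∈ P, y ∉ H := by
        intro y hy hyH
        apply hSH x1 hx1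
        have : x1 = y - (y - x1) := by abel
        rw [this]
        exact H.sub_mem hyH (hPH y hy)
      have hd1 : Disjoint (S.erase x1) P := by
        rw [disjoint_left]
        intro y hy hyP
        exact hSne x1 hx1 y (mem_erase.mp hy).2 (mem_erase.mp hy).1 (hPH y hyP)
      have hd2 : Disjoint ((elts H).erase 0) (S.erase x1 ∪ P) := by
        rw [disjoint_left]
        intro y hy hy2
        have hyH : y ∈ H := mem_elts.mp (mem_erase.mp hy).2
        rcases mem_union.mp hy2 with h3 | h3
        · exact hSH y (mem_erase.mp h3).2 hyH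
        · exact hPH' y h3 hyH
      refine ⟨(elts H).erase 0 ∪ (S.erase x1 ∪ P), ?_, ?_, ?_, ?_⟩
      · rw [mem_union, mem_union, not_or, not_or]
        refine ⟨by simp, fun h3 => hSH 0 (mem_erase.mp h3).2 H.zero_mem,
          fun h3 => hPH' 0 h3 H.zero_mem⟩
      · rw [card_union_of_disjoint hd2, card_union_of_disjoint hd1, hH0c, card_erase_of_mem hx1,
          hSc, hPc]
        omega
      · rw [eq_top_iff, ← hSg]
        apply sup_le
        · intro y hy
          rcases eq_or_ne y 0 with rfl | hy0
          · exact AddSubgroup.zero_mem _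
          · apply AddSubgroup.subset_closure
            rw [mem_coe, mem_union]
            exact Or.inl (mem_erase.mpr ⟨hy0, mem_elts.mpr hy⟩)
        · apply AddSubgroup.closure_mono
          intro y hy
          rw [mem_coe, mem_union, mem_union]
          rcases eq_or_ne y x1 with rfl | hyx
          · exact Or.inr (Or.inr hx1P)
          · exact Or.inr (Or.inl (mem_erase.mpr ⟨hyx, hy⟩))
      · -- counting
        have h3 : FS ((elts H).erase 0 ∪ (S.erase x1 ∪ P)) id ⊆
            (elts H ×ˢ (FS (S.erase x1) id ×ˢ range (P.card + 1))).image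
              (fun p => p.1 + (p.2.1 + p.2.2 • x1)) := by
          intro x hx
          obtain ⟨a, ha, b, hb, rfl⟩ := (mem_FS_union hd2 id).mp hx
          obtain ⟨c, hc, d, hd, rfl⟩ := (mem_FS_union hd1 id).mp hb
          obtain ⟨t, ht, rfl⟩ := mem_FS.mp hd
          have haH : a ∈ H := FS_subset_of_mem
            (fun y hy => mem_elts.mp (mem_erase.mp hy).2) ha
          have h4 : ∑ i ∈ t, (id i - x1) ∈ H := H.sum_mem fun i hi => hPH i (ht hi)
          rw [sum_sub_distrib, sum_const] at h4
          refine mem_image.mpr ⟨(a + (∑ i ∈ t, id i - t.card • x1), (c, t.card)), ?_, ?_⟩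
          · rw [mem_product, mem_product, mem_range]
            exact ⟨mem_elts.mpr (H.add_mem haH h4), hc, Nat.lt_succ_of_le (card_le_card ht)⟩
          · simp only
            abel
        have h5 := (card_le_card h3).trans card_image_le
        rw [card_product, card_product, card_elts, card_range, hPc] at h5
        refine h5.trans ?_
        rw [cost_eq]
        apply Nat.mul_le_mul_left
        have h6 := card_FS_le (S.erase x1) (id : G → G)
        rw [card_erase_of_mem hx1, hSc] at h6
        obtain ⟨ρ, hρ⟩ : ∃ ρ, r = ρ + 1 := ⟨r - 1, by omega⟩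
        calc (FS (S.erase x1) id).card * (m + 2 - h - r + 1)
            ≤ 2 ^ (r - 1) * (m + 2 - h - r + 1) := Nat.mul_le_mul_right _ h6
          _ = 2 ^ r + 2 ^ (r - 1) * (m + 1 - h - r) := by
              rw [hρ, Nat.add_sub_cancel, pow_succ, ← mul_add]
              congr 1
              omega
    · -- a part of H
      obtain ⟨T, hT0, hTc, hTk⟩ := exists_gen H
      have hrT : r + T.card ≤ m := by
        apply few_generators h1
        calc 2 ^ (r + T.card) = 2 ^ T.card * 2 ^ r := by rw [pow_add]; ring
          _ ≤ h * 2 ^ r := Nat.mul_le_mul_right _ hTk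
          _ ≤ _ := hpow
      have hTH : ∀ x ∈ T, x ∈ H := by
        intro x hx
        rw [← hTc]
        exact AddSubgroup.subset_closure hx
      have hsub : T ⊆ (elts H).erase 0 := by
        intro x hx
        rw [mem_erase]
        exact ⟨fun h3 => hT0 (h3 ▸ hx), mem_elts.mpr (hTH x hx)⟩
      obtain ⟨A0, hTA, hA0, hA0c⟩ := exists_subsuperset_card_eq (n := m - r) hsub (by omega)
        (by rw [hH0c]; omega)
      have hA0H : ∀ x ∈ A0, x ∈ H := fun x hx => mem_elts.mp (mem_erase.mp (hA0 hx)).2
      have hd : Disjoint A0 S := by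
        rw [disjoint_left]
        intro x hx hxS
        exact hSH x hxS (hA0H x hx)
      refine ⟨A0 ∪ S, ?_, ?_, ?_, ?_⟩
      · rw [mem_union, not_or]
        exact ⟨fun h3 => (mem_erase.mp (hA0 h3)).1 rfl, fun h3 => hSH 0 h3 H.zero_mem⟩
      · rw [card_union_of_disjoint hd, hA0c, hSc]
        omega
      · rw [eq_top_iff, ← hSg, coe_union, AddSubgroup.closure_union]
        apply sup_le_sup_right
        nth_rewrite 1 [← hTc]
        exact AddSubgroup.closure_mono (coe_subset.mpr hTA)
      · refine (card_FS_le_mul H A0 S hd hA0H).trans ?_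
        rw [cost_eq]
        have h3 : m + 1 - Nat.card H - crk H = 0 := by omega
        rw [h3, mul_zero, add_zero]
        apply Nat.mul_le_mul_left
        rw [← hr, ← hSc]
        exact card_FS_le S id

end Upper

end Pool.Agent.Helper64.Rho
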